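import Pool.Agent.H71.Sng

/-!
Surjectivity of restrictions in Alexander-Spanier cohomology mod 2.
-/

set_option autoImplicit false

namespace Pool.Agent.H71

open Pool.Agent.Helper775.Tight
open Set Topology SoftCx

/-- restriction from `P` to `Z` is surjective in Alexander-Spanier cohomology (germ form). -/
def ASS {P : Type*} [MetricSpace P] (Z : Set P) : Prop :=
  ∀ n c, (AS P).Coc Z n c → ∃ c', (AS P).Coc univ n c' ∧ (AS P).Cob Z n (c - c')

section

variable {P : Type*} [MetricSpace P]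

theorem ASS.univ : ASS (univ : Set P) := fun n c hc => ⟨c, hc, by
  rw [sub_self]; exact cob_zero _ _⟩

theorem ASS.empty : ASS (∅ : Set P) := fun n c _ => ⟨0, coc_zero _ _, Cob.of_mem (by simp)⟩

theorem coc_univ_one : (AS P).Coc univ 1 one := fun z _ => one_D_mem z

/-- the three pieces of information which give surjectivity for `Z`. -/
theorem ASS.of_data {Z : Set P}
    (h1 : ∀ k, (AS P).Coc Z 1 k → (∀ z ∈ Z, k ∈ (AS P).N z 1) ∨ ∀ z ∈ Z, k - one ∈ (AS P).N z 1)
    (h2 : ∀ n, 2 ≤ n → ∀ c, (AS P).Coc Z n c →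
      ∃ c', (AS P).Coc Set.univ n c' ∧ (AS P).Cob Z n (c - c')) : ASS Z := by
  intro n c hc
  rcases n with _ | _ | n
  · exact ⟨0, coc_zero _ _, cob_index_zero _ _⟩
  · rcases h1 c hc with h | h
    · exact ⟨0, coc_zero _ _, Cob.of_mem (by simpa using h)⟩
    · exact ⟨one, coc_univ_one, Cob.of_mem h⟩
  · exact h2 _ (by omega) c hc

theorem ASS.of_acy {Z : Set P} (h : (AS P).Acy one Z) : ASS Z :=
  ASS.of_data h.2.1 fun n hn c hc => ⟨0, coc_zero _ _, by
    rw [sub_zero]; exact h.2.2 n hn c hc⟩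

theorem ASS.singleton (p : P) : ASS ({p} : Set P) := ASS.of_acy (acy_singleton p)

theorem ASS.preimage {Z : Set P} (h : ASS Z) (Φ : P ≃ₜ P) : ASS (Φ ⁻¹' Z) := by
  intro n c hc
  have h1 : (AS P).Coc Z n (pb Φ.symm c) :=
    coc_pb (fun x _ => Φ.symm.continuous.continuousAt) (fun x hx => by simpa using hx) hc
  obtain ⟨c', hc', hcob⟩ := h n _ h1
  refine ⟨pb Φ c', coc_pb (fun x _ => Φ.continuous.continuousAt) (mapsTo_univ _ _) hc', ?_⟩
  have h2 := cob_pb (g := Φ) (F := Φ ⁻¹' Z) (fun x _ => Φ.continuous.continuousAt)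
    (fun x hx => hx) hcob
  have e : pb Φ (pb Φ.symm c - c') = c - pb Φ c' := by
    funext l
    simp only [pb, Pi.sub_apply, List.map_map]
    congr 2
    have : (Φ.symm ∘ Φ : P → P) = id := by funext x; simp
    rw [this, List.map_id]
  rwa [e] at h2

/-- homotopy invariance. -/
theorem ASS.of_homotopy {R L : Set P} (hR : IsCompact R) (hL : ASS L) (H : ℝ → P → P)
    (hH : ∀ t ∈ Icc (0 : ℝ) 1, ∀ x ∈ R, ContinuousAt (fun p : ℝ × P => H p.1 p.2) (t, x))
    (hHR : ∀ t ∈ Icc (0 : ℝ) 1, ∀ x ∈ R, H t x ∈ R) (h0 : ∀ x ∈ R, H 0 x = x)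
    (h1 : ∀ x ∈ R, H 1 x ∈ L) (hLR : L ⊆ R) : ASS R := by
  intro n c hc
  have m0 : (0 : ℝ) ∈ Icc (0 : ℝ) 1 := left_mem_Icc.2 zero_le_one
  have m1 : (1 : ℝ) ∈ Icc (0 : ℝ) 1 := right_mem_Icc.2 zero_le_one
  have hcont : ∀ t ∈ Icc (0 : ℝ) 1, ∀ x ∈ R, ContinuousAt (H t) x := by
    intro t ht x hx
    have h2 : ContinuousAt (fun y : P => (t, y)) x := by fun_prop
    exact ContinuousAt.comp (x := x) (f := fun y : P => (t, y))
      (g := fun p : ℝ × P => H p.1 p.2) (hH t ht x hx) h2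
  have main : ∀ c, (AS P).Coc R n c → (AS P).Cob R n (c - pb (H 1) c) := by
    intro c hc
    have a1 := cob_pb_sub (F := R) (g₁ := id) (g₂ := H 0) (fun x _ => continuousAt_id)
      (hcont 0 m0) (fun x hx => (h0 x hx).symm) (mapsTo_id R) hc
    have a2 := cob_pb_homotopy hR H hH hHR hc
    have e1 : pb (id : P → P) c = c := by funext l; simp [pb]
    rw [e1] at a1
    simpa using a1.add a2
  obtain ⟨c', hc', hcob⟩ := hL n c (hc.mono hLR)
  refine ⟨c', hc', ?_⟩
  have b1 := cob_pb (g := H 1) (F := R) (hcont 1 m1) h1 hcob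
  have b2 := (main c hc).add b1
  have b3 := main c' (hc'.mono (subset_univ _))
  have b4 := b2.sub b3
  have e : c - pb (H 1) c + pb (H 1) (c - c') - (c' - pb (H 1) c') = c - c' := by
    funext l
    simp only [pb, Pi.sub_apply, Pi.add_apply]
    ring
  rwa [e] at b4

/-- from germs to the intrinsic form. -/
theorem cechSurjective_of_ASS {Z : Set P} (hZ : IsCompact Z) (h : ASS Z) : CechSurjective Z := by
  rcases Z.eq_empty_or_nonempty with rfl | hne
  · intro q c _
    refine ⟨0, ?_, 0, fun y => (y.2).elim⟩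
    rw [asD_eq, locallyZero_iff]
    intro z _
    have : dd (0 : Ch P) = 0 := map_zero (DD (Ω := P))
    rw [this]; exact zero_mem _
  intro q c hc
  obtain ⟨ρ, hρ1, hρ2, hρ3⟩ := exists_retraction hZ hne
  have hg : ∀ x ∈ Z, ContinuousAt (fun x => (⟨ρ x, hρ1 x⟩ : Z)) x := by
    intro x hx
    rw [ContinuousAt, tendsto_subtype_rng]
    exact hρ3 x hx
  have hcZ : (AS Z).Coc univ (q + 1) c := by
    rw [asD_eq, locallyZero_iff] at hc; exact hc
  have h1 : (AS P).Coc Z (q + 1) (pb (fun x => (⟨ρ x, hρ1 x⟩ : Z)) c) :=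
    coc_pb hg (mapsTo_univ _ _) hcZ
  obtain ⟨c', hc', hcob⟩ := h (q + 1) _ h1
  refine ⟨c', by rw [asD_eq, locallyZero_iff]; exact hc', ?_⟩
  have hval : ∀ x ∈ (Set.univ : Set Z), ContinuousAt (Subtype.val : Z → P) x := fun x _ =>
    continuous_subtype_val.continuousAt
  have h2 := cob_pb (g := (Subtype.val : Z → P)) hval (fun x _ => x.2) hcob
  obtain ⟨b, hb⟩ := h2
  refine ⟨b, ?_⟩
  rw [asD_eq, locallyZero_iff]
  intro z hz
  have h3 := hb z hz
  have e : pb (Subtype.val : Z → P) (pb (fun x => (⟨ρ x, hρ1 x⟩ : Z)) c - c') - (AS Z).D b =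
      fun l => c l - c' (l.map (↑)) - dd b l := by
    funext l
    simp only [pb, Pi.sub_apply, List.map_map, AS_D]
    congr 3
    have : ((fun x => (⟨ρ x, hρ1 x⟩ : Z)) ∘ (Subtype.val : Z → P)) = id := by
      funext x
      apply Subtype.ext
      exact hρ2 x x.2
    rw [this, List.map_id]
  rwa [e] at h3

/-- surjectivity for a homeomorphic image gives surjectivity of the pull back. -/
theorem pullback_of_ASS {S : Type*} [MetricSpace S] [CompactSpace S] (j : C(S, P))
    (hinj : Function.Injective j) [Nonempty S] (h : ASS (range j)) :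
    ∀ n c, (AS S).Coc Set.univ n c → ∃ c', (AS P).Coc Set.univ n c' ∧
      (AS S).Cob Set.univ n (c - pb j c') := by
  intro n c hc
  obtain ⟨g, g', h1, h2, h3, h4⟩ := exists_ext (F := (Set.univ : Set S)) isCompact_univ
    univ_nonempty (φ := j) j.continuous.continuousOn hinj.injOn
  rw [image_univ] at h2
  have hg' : (AS P).Coc (range j) n (pb g' c) := coc_pb h2 (mapsTo_univ _ _) hc
  obtain ⟨c', hc', hcob⟩ := h n _ hg'
  refine ⟨c', hc', ?_⟩
  have h5 := cob_pb (g := j) (F := (Set.univ : Set S)) (fun x _ => j.continuous.continuousAt)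
    (fun x _ => mem_range_self x) hcob
  have e : pb j (pb g' c - c') = c - pb j c' := by
    funext l
    simp only [pb, Pi.sub_apply, List.map_map]
    congr 2
    have : (g' ∘ j) = id := by
      funext x
      exact h4 x (mem_univ x)
    rw [this, List.map_id]
  rwa [e] at h5

end

section homology

variable {P : Type*} [MetricSpace P]

theorem HI.of_comp {X Y Z : Type*} [TopologicalSpace X] [TopologicalSpace Y] [TopologicalSpace Z]
    {i : C(X, Y)} {j : C(Y, Z)} (h : HI (j.comp i)) : HI i := by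
  intro n c hc ⟨b, hb⟩
  refine h n c hc ⟨cp j (n + 1) b, ?_⟩
  rw [bdry_cp, hb, cp_cp]

theorem HI.of_homeo_comp {X Y Z : Type*} [TopologicalSpace X] [TopologicalSpace Y]
    [TopologicalSpace Z] (e : X ≃ₜ Y) {j : C(Y, Z)} (h : HI (j.comp (e : C(X, Y)))) : HI j := by
  have h1 : j = (j.comp (e : C(X, Y))).comp (e.symm : C(Y, X)) := by
    ext y; simp
  rw [h1]
  exact h.comp (HI.of_leftInverse _ (e : C(X, Y)) fun y => by simp)

/-- preimages under a homeomorphism. -/
theorem HI.preimage {R : Set P} (h : HI (inc R)) (Φ : P ≃ₜ P) : HI (inc (Φ ⁻¹' R)) := by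
  let e : C(↥(Φ ⁻¹' R), R) := ⟨fun x => ⟨Φ x, x.2⟩, by fun_prop⟩
  let e' : C(R, ↥(Φ ⁻¹' R)) := ⟨fun y => ⟨Φ.symm y, by simp⟩, by fun_prop⟩
  have h1 : HI ((inc R).comp e) := h.comp (HI.of_leftInverse e e' fun x => by
    apply Subtype.ext
    simp [e, e'])
  have h2 : (inc R).comp e = (Φ : C(P, P)).comp (inc (Φ ⁻¹' R)) := by
    ext x; rfl
  rw [h2] at h1
  exact h1.of_comp

end homology

end Pool.Agent.H71
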