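import Pool.Agent.H71.Plane

/-!
The action of the unitary group and of permutations; half spaces.
-/

set_option autoImplicit false

namespace Pool.Agent.H71

open Set Topology Matrix

variable {K : Type*} [RCLike K]

/-- the unitary action on matrices -/
noncomputable def act (U : Matrix (Fin 3) (Fin 3) K) (A : Fin 3 → Fin 3 → K) : Fin 3 → Fin 3 → K :=
  fun i j => (U * (Matrix.of A) * Uᴴ) i j

theorem act_mem {U : Matrix (Fin 3) (Fin 3) K} (hU : Uᴴ * U = 1) {A : Fin 3 → Fin 3 → K}
    (hA : A ∈ PP K) : act U A ∈ PP K := by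
  obtain ⟨v, hv, h⟩ := hA
  refine ⟨U *ᵥ v, ?_, fun i j => ?_⟩
  · have e : ∀ w : Fin 3 → K, ((∑ i, ‖w i‖ ^ 2 : ℝ) : K) = star w ⬝ᵥ w := by
      intro w
      rw [dotProduct, RCLike.ofReal_sum]
      refine Finset.sum_congr rfl fun i _ => ?_
      rw [Pi.star_apply, RCLike.star_def, RCLike.conj_mul]
      push_cast; rfl
    have h1 : star (U *ᵥ v) ⬝ᵥ (U *ᵥ v) = star v ⬝ᵥ v := by
      rw [star_mulVec, dotProduct_mulVec, vecMul_vecMul, hU, vecMul_one]
    rw [← e, ← e] at h1
    have h2 := RCLike.ofReal_injective h1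
    rw [h2, hv]
  · have h1 : Matrix.of A = vecMulVec v (star v) := by
      ext i j
      rw [Matrix.of_apply, h, vecMulVec_apply, Pi.star_apply]
    rw [act, h1, mul_vecMulVec, vecMulVec_mul, vecMulVec_apply, ← star_mulVec, Pi.star_apply]

theorem act_act (U V : Matrix (Fin 3) (Fin 3) K) (A : Fin 3 → Fin 3 → K) :
    act U (act V A) = act (U * V) A := by
  have h1 : (Matrix.of (act V A)) = V * Matrix.of A * Vᴴ := by
    ext i j; rfl
  funext i j
  rw [act, h1, act, conjTranspose_mul]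
  simp only [Matrix.mul_assoc]

theorem act_one (A : Fin 3 → Fin 3 → K) : act 1 A = A := by
  funext i j
  rw [act]; simp

theorem act_cont (U : Matrix (Fin 3) (Fin 3) K) : Continuous (act U) := by
  apply continuous_pi
  intro i
  apply continuous_pi
  intro j
  simp only [act, Matrix.mul_apply, Matrix.of_apply]
  fun_prop

/-- the action of a unitary matrix as a homeomorphism -/
noncomputable def actHomeo (U : Matrix (Fin 3) (Fin 3) K) (h1 : Uᴴ * U = 1) (h2 : U * Uᴴ = 1) :
    PP K ≃ₜ PP K where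
  toFun A := ⟨act U A.1, act_mem h1 A.2⟩
  invFun A := ⟨act Uᴴ A.1, act_mem (by rw [conjTranspose_conjTranspose]; exact h2) A.2⟩
  left_inv A := by
    apply Subtype.ext
    change act Uᴴ (act U A.1) = A.1
    rw [act_act, h1, act_one]
  right_inv A := by
    apply Subtype.ext
    change act U (act Uᴴ A.1) = A.1
    rw [act_act, h2, act_one]
  continuous_toFun := ((act_cont U).comp continuous_subtype_val).subtype_mk _
  continuous_invFun := ((act_cont Uᴴ).comp continuous_subtype_val).subtype_mk _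

theorem entry_cont (i j : Fin 3) : Continuous fun A : PP K => A.1 i j := by
  have b1 : Continuous fun A : Fin 3 → Fin 3 → K => A i j := by fun_prop
  exact b1.comp continuous_subtype_val

/-- permuted matrix -/
def prm (σ : Equiv.Perm (Fin 3)) (A : Fin 3 → Fin 3 → K) : Fin 3 → Fin 3 → K :=
  fun i j => A (σ i) (σ j)

theorem prm_mem (σ : Equiv.Perm (Fin 3)) {A : Fin 3 → Fin 3 → K} (hA : A ∈ PP K) :
    prm σ A ∈ PP K := by
  obtain ⟨v, hv, h⟩ := hA
  refine ⟨fun i => v (σ i), ?_, fun i j => h _ _⟩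
  rw [Equiv.sum_comp σ (fun i => ‖v i‖ ^ 2)]
  exact hv

theorem prm_cont (σ : Equiv.Perm (Fin 3)) : Continuous fun A : PP K => prm σ A.1 :=
  continuous_pi fun i => continuous_pi fun j => entry_cont (σ i) (σ j)

/-- permutation of the coordinates -/
def permHomeo (σ : Equiv.Perm (Fin 3)) : PP K ≃ₜ PP K where
  toFun A := ⟨prm σ A.1, prm_mem σ A.2⟩
  invFun A := ⟨prm σ.symm A.1, prm_mem σ.symm A.2⟩
  left_inv A := by
    apply Subtype.ext
    funext i j
    simp [prm]
  right_inv A := by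
    apply Subtype.ext
    funext i j
    simp [prm]
  continuous_toFun := Continuous.subtype_mk (prm_cont σ) _
  continuous_invFun := Continuous.subtype_mk (prm_cont σ.symm) _

/-- half spaces of Hermitian matrices -/
def Hf (B : Matrix (Fin 3) (Fin 3) K) : Set (PP K) :=
  {A | 0 ≤ RCLike.re (∑ i, ∑ j, B i j * A.1 j i)}

theorem hf_eq {B : Matrix (Fin 3) (Fin 3) K} (hB : B.IsHermitian) :
    ∃ (Φ : PP K ≃ₜ PP K) (μ : Fin 3 → ℝ), Hf B = Φ ⁻¹' (Rg K μ) := by
  classical
  set V : Matrix (Fin 3) (Fin 3) K := (hB.eigenvectorUnitary : Matrix (Fin 3) (Fin 3) K) with hV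
  have v1 : Vᴴ * V = 1 := by
    have := Matrix.UnitaryGroup.star_mul_self hB.eigenvectorUnitary
    exact this
  have v2 : V * Vᴴ = 1 := by
    exact mul_eq_one_comm.1 v1
  have spec : B = V * Matrix.diagonal (RCLike.ofReal ∘ hB.eigenvalues) * Vᴴ := by
    have := hB.spectral_theorem
    rw [Unitary.conjStarAlgAut_apply] at this
    exact this
  refine ⟨actHomeo Vᴴ (by rw [conjTranspose_conjTranspose]; exact v2)
    (by rw [conjTranspose_conjTranspose]; exact v1), hB.eigenvalues, ?_⟩
  ext A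
  have h1 : ∑ i, ∑ j, B i j * A.1 j i = Matrix.trace (B * Matrix.of A.1) := by
    simp only [Matrix.trace, Matrix.diag_apply, Matrix.mul_apply, Matrix.of_apply]
  have h2 : Matrix.trace (B * Matrix.of A.1) =
      ∑ i, ((hB.eigenvalues i : ℝ) : K) * (Vᴴ * Matrix.of A.1 * V) i i := by
    conv_lhs => rw [spec]
    have e1 : V * Matrix.diagonal (RCLike.ofReal ∘ hB.eigenvalues) * Vᴴ * Matrix.of A.1 =
        V * (Matrix.diagonal (RCLike.ofReal ∘ hB.eigenvalues) * (Vᴴ * Matrix.of A.1)) := by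
      simp only [Matrix.mul_assoc]
    rw [e1, Matrix.trace_mul_comm, Matrix.mul_assoc, Matrix.trace]
    refine Finset.sum_congr rfl fun i _ => ?_
    rw [Matrix.diag_apply, Matrix.diagonal_mul]
    rfl
  change 0 ≤ RCLike.re (∑ i, ∑ j, B i j * A.1 j i) ↔
    0 ≤ ∑ i, hB.eigenvalues i * RCLike.re ((Vᴴ * Matrix.of A.1 * Vᴴᴴ) i i)
  rw [h1, h2, conjTranspose_conjTranspose, map_sum]
  simp only [RCLike.re_ofReal_mul]

end Pool.Agent.H71
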