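import Pool.Agent.H71.ASS

/-!
Extension of Alexander-Spanier classes from the sphere to the manifold like a projective plane.
-/

set_option autoImplicit false

namespace Pool.Agent.H71

open Pool.Agent.Helper775.Tight
open Set Topology SoftCx

theorem ext_of_complement {P : Type*} [MetricSpace P] [CompactSpace P] {D : ℕ} (hD : 2 ≤ D)
    (S : Set P) (hS : IsClosed S) (e : (Sᶜ : Set P) ≃ₜ EuclideanSpace ℝ (Fin D)) {q : ℕ}
    (hq : 1 ≤ q) (hqD : q + 1 ≠ D) {c : Ch P} (hc : (AS P).Coc S (q + 1) c) :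
    ∃ c', (AS P).Coc univ (q + 1) c' ∧ (AS P).Cob S (q + 1) (c - c') := by
  classical
  obtain ⟨U, hU, hSU, hcU⟩ := hc.isOpen
  -- the parametrization of the cell
  set ψ : EuclideanSpace ℝ (Fin D) → P := fun y => (e.symm y : P) with hψ
  have hψc : Continuous ψ := continuous_subtype_val.comp e.symm.continuous
  have hψi : Function.Injective ψ := Subtype.val_injective.comp e.symm.injective
  have hψS : ∀ y, ψ y ∈ Sᶜ := fun y => (e.symm y).2
  have hψo : IsOpenMap ψ := by
    have h1 : IsOpenMap (Subtype.val : (Sᶜ : Set P) → P) := hS.isOpen_compl.isOpenMap_subtype_val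
    exact h1.comp e.symm.isOpenMap
  -- the inverse
  set φ : P → EuclideanSpace ℝ (Fin D) := fun x => if h : x ∈ Sᶜ then e ⟨x, h⟩ else 0 with hφ
  have hφψ : ∀ y, φ (ψ y) = y := by
    intro y
    have h1 : ψ y ∈ Sᶜ := hψS y
    simp only [hφ]
    rw [dif_pos h1]
    have h2 : (⟨ψ y, h1⟩ : (Sᶜ : Set P)) = e.symm y := Subtype.ext rfl
    rw [h2, e.apply_symm_apply]
  have hψφ : ∀ x ∈ Sᶜ, ψ (φ x) = x := by
    intro x hx
    simp only [hφ, hψ]
    rw [dif_pos hx, e.symm_apply_apply]
  have hφc : ContinuousOn φ Sᶜ := by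
    rw [continuousOn_iff_continuous_domRestrict]
    have : domRestrict (Sᶜ : Set P) φ = e := by
      funext x
      simp only [domRestrict, hφ]
      rw [dif_pos x.2]
    rw [this]
    exact e.continuous
  have hφi : InjOn φ Sᶜ := by
    intro x hx y hy hxy
    rw [← hψφ x hx, ← hψφ y hy, hxy]
  -- the radius
  obtain ⟨R, hR, hRU⟩ : ∃ R : ℝ, 0 < R ∧ ∀ x, x ∉ U → φ x ∈ Metric.ball 0 R := by
    have hUc : IsCompact (Uᶜ : Set P) := hU.isClosed_compl.isCompact
    have h1 : IsCompact (φ '' Uᶜ) :=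
      hUc.image_of_continuousOn (hφc.mono (compl_subset_compl.2 hSU))
    obtain ⟨r, hr⟩ := h1.isBounded.subset_ball 0
    refine ⟨max r 1, by positivity, fun x hx => ?_⟩
    exact Metric.ball_subset_ball (le_max_left _ _) (hr (mem_image_of_mem φ hx))
  set K : Set P := ψ '' Metric.closedBall 0 R with hK
  set W : Set P := (ψ '' Metric.ball 0 R)ᶜ with hW
  have hKc : IsCompact K := (isCompact_closedBall _ _).image hψc
  have hWc : IsClosed W := (hψo _ Metric.isOpen_ball).isClosed_compl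
  have hWU : W ⊆ U := by
    intro x hx
    by_contra hxU
    apply hx
    have hxS : x ∈ Sᶜ := fun h => hxU (hSU h)
    exact ⟨φ x, hRU x hxU, hψφ x hxS⟩
  have hun : (univ : Set P) = K ∪ W := by
    symm
    rw [eq_univ_iff_forall]
    intro x
    by_cases hx : x ∈ ψ '' Metric.ball 0 R
    · left
      exact image_mono Metric.ball_subset_closedBall hx
    · exact Or.inr hx
  have hint : K ∩ W = ψ '' Metric.sphere 0 R := by
    ext x
    constructor
    · rintro ⟨⟨y, hy, rfl⟩, h2⟩
      refine ⟨y, ?_, rfl⟩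
      rw [mem_sphere_zero_iff_norm]
      rw [mem_closedBall_zero_iff] at hy
      by_contra hne
      apply h2
      refine ⟨y, ?_, rfl⟩
      rw [mem_ball_zero_iff]
      exact lt_of_le_of_ne hy hne
    · rintro ⟨y, hy, rfl⟩
      rw [mem_sphere_zero_iff_norm] at hy
      refine ⟨⟨y, by rw [mem_closedBall_zero_iff, hy], rfl⟩, ?_⟩
      rintro ⟨z, hz, hzy⟩
      rw [hψi hzy, mem_ball_zero_iff, hy] at hz
      exact lt_irrefl _ hz
  have hKS : K ⊆ Sᶜ := by rintro _ ⟨y, _, rfl⟩; exact hψS y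
  have hSW : S ⊆ W := by
    rintro x hx ⟨y, _, rfl⟩
    exact hψS y hx
  -- the sphere
  set φ' : P → EuclideanSpace ℝ (Fin D) := fun x => R⁻¹ • φ x with hφ'
  have hIK : K ∩ W ⊆ Sᶜ := inter_subset_left.trans hKS
  have hIc : IsCompact (K ∩ W) := hKc.inter_right hWc
  have hφ'c : ContinuousOn φ' (K ∩ W) :=
    (continuous_const_smul (R⁻¹ : ℝ)).comp_continuousOn (hφc.mono hIK)
  have hφ'i : InjOn φ' (K ∩ W) := by
    intro x hx y hy hxy
    apply hφi (hIK hx) (hIK hy)
    exact smul_right_injective _ (inv_ne_zero hR.ne') hxy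
  have himg : φ' '' (K ∩ W) = Sp D D := by
    rw [hint, image_image]
    simp only [hφ', hφψ]
    ext x
    constructor
    · rintro ⟨y, hy, rfl⟩
      rw [mem_sphere_zero_iff_norm] at hy
      refine ⟨?_, fun i hi => absurd i.2 (by omega)⟩
      rw [norm_smul, norm_inv, Real.norm_eq_abs, abs_of_pos hR, hy, inv_mul_cancel₀ hR.ne']
    · rintro ⟨hx, _⟩
      refine ⟨R • x, ?_, ?_⟩
      · rw [mem_sphere_zero_iff_norm, norm_smul, Real.norm_eq_abs, abs_of_pos hR, hx, mul_one]
      · simp only [smul_smul, inv_mul_cancel₀ hR.ne', one_smul]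
  have hex : (AS P).Ex (K ∩ W) (q + 1) := by
    refine ex_of_injOn hIc hφ'c hφ'i ?_
    rw [himg]
    exact sp_ex (by omega) le_rfl (q + 1) (by omega) hqD
  obtain ⟨b, hb⟩ := hex c (hcU.mono (inter_subset_right.trans hWU))
  obtain ⟨k₁, hk1, hk2⟩ := (AS P).soft (q + 1) (c - (AS P).D b) K W hKc.isClosed hWc hb
  refine ⟨k₁, ?_, b, ?_⟩
  · intro z _
    have hz : z ∈ K ∪ W := hun ▸ mem_univ z
    rcases hz with hz | hz
    · exact (AS P).D_mem z _ _ (hk1 z hz)
    · have h1 := (AS P).D_mem z _ _ (hk2 z hz)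
      have h2 := hcU z (hWU hz)
      have h3 := (AS P).DD_mem z (q + 1 + 1) b
      have h4 := sub_mem (sub_mem h2 h3) h1
      have e1 : (AS P).D c - (AS P).D ((AS P).D b) - (AS P).D (c - (AS P).D b - k₁) =
          (AS P).D k₁ := by
        rw [map_sub, map_sub]; abel
      rwa [e1] at h4
  · intro z hz
    have h1 := hk2 z (hSW hz)
    have e1 : c - (AS P).D b - k₁ = c - k₁ - (AS P).D b := by abel
    rwa [e1] at h1

theorem one_sphere {P : Type*} [MetricSpace P] [CompactSpace P] {d : ℕ} (hd : 1 ≤ d)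
    (S : Set P) (hS : IsClosed S)
    (e : S ≃ₜ Metric.sphere (0 : EuclideanSpace ℝ (Fin (d + 1))) 1) (k : Ch P)
    (hk : (AS P).Coc S 1 k) :
    (∀ z ∈ S, k ∈ (AS P).N z 1) ∨ ∀ z ∈ S, k - one ∈ (AS P).N z 1 := by
  rcases S.eq_empty_or_nonempty with rfl | hne
  · exact Or.inl (by simp)
  refine coc_one_of_injOn hS.isCompact hne (sphMap_cont S e) (sphMap_inj S e) ?_ k hk
  rw [sphMap_image]
  exact sp_connected (by omega) le_rfl

theorem ass_sphere_of_two_le {P : Type*} [MetricSpace P] [CompactSpace P] {d : ℕ} (hd : 2 ≤ d)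
    (S : Set P) (hS : IsClosed S)
    (eS : S ≃ₜ Metric.sphere (0 : EuclideanSpace ℝ (Fin (d + 1))) 1)
    (eC : (Sᶜ : Set P) ≃ₜ EuclideanSpace ℝ (Fin (2 * d))) : ASS S := by
  refine ASS.of_data (one_sphere (by omega) S hS eS) ?_
  intro n hn c hc
  by_cases hnd : n = d + 1
  · subst hnd
    exact ext_of_complement (by omega) S hS eC (by omega) (by omega) hc
  · exact ⟨0, coc_zero _ _, by
      rw [sub_zero]
      exact ex_sphere_image (by omega) S hS eS n hn hnd c hc⟩

theorem ass_sphere_of_class {P : Type*} [MetricSpace P] [CompactSpace P] {d : ℕ} (hd : 1 ≤ d)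
    (S : Set P) (hS : IsClosed S)
    (eS : S ≃ₜ Metric.sphere (0 : EuclideanSpace ℝ (Fin (d + 1))) 1) (a : Ch P)
    (ha : (AS P).Coc univ (d + 1) a) (hna : ¬ (AS P).Cob S (d + 1) a) : ASS S := by
  refine ASS.of_data (one_sphere (by omega) S hS eS) ?_
  intro n hn c hc
  by_cases hnd : n = d + 1
  · subst hnd
    rcases rank_sphere_image hd S hS eS c a hc (ha.mono (subset_univ _)) with h | h | h
    · exact ⟨0, coc_zero _ _, by rw [sub_zero]; exact h⟩
    · exact absurd h hna
    · exact ⟨a, ha, h⟩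
  · exact ⟨0, coc_zero _ _, by
      rw [sub_zero]
      exact ex_sphere_image (by omega) S hS eS n hn hnd c hc⟩

/-- the inclusion of the sphere is injective in singular homology. -/
theorem hi_sphere {P : Type*} [MetricSpace P] {d : ℕ} (S : Set P)
    (eS : S ≃ₜ Metric.sphere (0 : EuclideanSpace ℝ (Fin (d + 1))) 1) (h : ASS S) :
    HI (inc S) := by
  let j : C(Metric.sphere (0 : EuclideanSpace ℝ (Fin (d + 1))) 1, P) :=
    (inc S).comp (eS.symm : C(_, _))
  have hr : range j = S := by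
    ext x
    constructor
    · rintro ⟨y, rfl⟩
      exact (eS.symm y).2
    · intro hx
      refine ⟨eS ⟨x, hx⟩, ?_⟩
      simp [j, inc]
  have hne : Nonempty (Metric.sphere (0 : EuclideanSpace ℝ (Fin (d + 1))) 1) :=
    (NormedSpace.sphere_nonempty.2 zero_le_one).to_subtype
  have : Fact (Module.finrank ℝ (EuclideanSpace ℝ (Fin (d + 1))) = d + 1) := ⟨by simp⟩
  have : CompactSpace (Metric.sphere (0 : EuclideanSpace ℝ (Fin (d + 1))) 1) :=
    isCompact_iff_compactSpace.1 (isCompact_sphere _ _)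
  have h1 : HI j := HI.of_AS (m := d) j (pullback_of_ASS j
    (Subtype.val_injective.comp eS.symm.injective) (by rw [hr]; exact h))
  exact HI.of_homeo_comp eS.symm h1

end Pool.Agent.H71
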