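import Pool.Agent.H71.Act
import Pool.Agent.H71.Ext

/-!
Charts of the projective plane and its line.
-/

set_option autoImplicit false

namespace Pool.Agent.H71

open Pool.Agent.Helper775.Tight
open Set Topology

variable {K : Type*} [RCLike K]

theorem ins_pos (k : Fin 3) (z : Fin 2 → K) :
    0 < ∑ i, ‖(k.insertNth (α := fun _ => K) (1 : K) z) i‖ ^ 2 := by
  have h1 : ‖(k.insertNth (α := fun _ => K) (1 : K) z) k‖ ^ 2 ≤
      ∑ i, ‖(k.insertNth (α := fun _ => K) (1 : K) z) i‖ ^ 2 :=
    Finset.single_le_sum (f := fun i => ‖(k.insertNth (α := fun _ => K) (1 : K) z) i‖ ^ 2)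
      (fun j _ => by positivity) (Finset.mem_univ k)
  rw [Fin.insertNth_apply_same, norm_one, one_pow] at h1
  linarith

theorem ins_cont (k : Fin 3) (i : Fin 3) :
    Continuous fun z : Fin 2 → K => (k.insertNth (α := fun _ => K) (1 : K) z) i := by
  by_cases h : i = k
  · subst h
    simp only [Fin.insertNth_apply_same]
    exact continuous_const
  · obtain ⟨j, rfl⟩ := Fin.exists_succAbove_eq h
    simp only [Fin.insertNth_apply_succAbove]
    exact continuous_apply j

/-- the affine charts -/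
noncomputable def chart (k : Fin 3) : OpenPartialHomeomorph (PP K) (Fin 2 → K) where
  toFun A := fun j => A.1 (k.succAbove j) k / A.1 k k
  invFun z := ⟨ptf (k.insertNth (α := fun _ => K) (1 : K) z), ptf_mem (ins_pos k z)⟩
  source := {A | A.1 k k ≠ 0}
  target := univ
  map_source' _ _ := mem_univ _
  map_target' z _ := by
    change ptf (k.insertNth (α := fun _ => K) (1 : K) z) k k ≠ 0
    rw [ptf, Fin.insertNth_apply_same, star_one, mul_one]
    exact div_ne_zero one_ne_zero (RCLike.ofReal_ne_zero.2 (ins_pos k z).ne')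
  left_inv' A hA := by
    apply Subtype.ext
    obtain ⟨A, v, hv, h⟩ := A
    change A k k ≠ 0 at hA
    change ptf (k.insertNth (α := fun _ => K) (1 : K) fun j => A (k.succAbove j) k / A k k) = A
    have h1 : (k.insertNth (α := fun _ => K) (1 : K) fun j => A (k.succAbove j) k / A k k) =
        fun i => (star (v k) / A k k) * v i := by
      funext i
      by_cases hi : i = k
      · subst hi
        rw [Fin.insertNth_apply_same]
        have h2 := h i i
        field_simp
        rw [h2]; ring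
      · obtain ⟨j, rfl⟩ := Fin.exists_succAbove_eq hi
        rw [Fin.insertNth_apply_succAbove, h (k.succAbove j) k]
        ring
    rw [h1, ptf_smul, ptf_unit hv h]
    intro h0
    rcases div_eq_zero_iff.1 h0 with h2 | h2
    · apply hA
      rw [h k k, h2, mul_zero]
    · exact hA h2
  right_inv' z _ := by
    funext j
    change ptf (k.insertNth (α := fun _ => K) (1 : K) z) (k.succAbove j) k /
      ptf (k.insertNth (α := fun _ => K) (1 : K) z) k k = z j
    have h0 := RCLike.ofReal_ne_zero (K := K) |>.2 (ins_pos k z).ne'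
    rw [ptf, Fin.insertNth_apply_same, Fin.insertNth_apply_succAbove, star_one]
    simp only [mul_one]
    rw [ptf, Fin.insertNth_apply_same, star_one, mul_one]
    field_simp
  open_source := by
    have h1 : IsOpen {A : PP K | A.1 k k ∈ ({0} : Set K)ᶜ} :=
      isOpen_compl_singleton.preimage (entry_cont k k)
    exact h1
  open_target := isOpen_univ
  continuousOn_toFun := by
    rw [continuousOn_pi]
    intro j
    exact (entry_cont _ _).continuousOn.div (entry_cont _ _).continuousOn fun A hA => hA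
  continuousOn_invFun := by
    apply Continuous.continuousOn
    apply Continuous.subtype_mk
    apply continuous_pi
    intro i
    apply continuous_pi
    intro j
    unfold ptf
    refine Continuous.div ((ins_cont k i).mul (ins_cont k j).star) ?_ ?_
    · refine RCLike.continuous_ofReal.comp ?_
      exact continuous_finsetSum _ fun l _ => (ins_cont k l).norm.pow 2
    · intro z
      exact RCLike.ofReal_ne_zero.2 (ins_pos k z).ne'

theorem exists_dg_pos (A : PP K) : ∃ k, A.1 k k ≠ 0 := by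
  by_contra hcon
  push Not at hcon
  have h1 := dg_sum A.2
  have h2 : ∀ i, dg A.1 i = 0 := by
    intro i
    rw [dg, hcon i]; simp
  simp only [h2, Finset.sum_const_zero] at h1
  exact zero_ne_one h1

/-- the projective plane as a topological manifold -/
@[reducible] noncomputable def ppCharted {E : Type*} [TopologicalSpace E]
    (κ : (Fin 2 → K) ≃ₜ E) : ChartedSpace E (PP K) where
  atlas := {e | ∃ k, e = (chart k).trans κ.toOpenPartialHomeomorph}
  chartAt A := (chart (exists_dg_pos A).choose).trans κ.toOpenPartialHomeomorph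
  mem_chart_source A := by
    rw [OpenPartialHomeomorph.trans_source]
    refine ⟨(exists_dg_pos A).choose_spec, mem_univ _⟩
  chart_mem_atlas A := ⟨_, rfl⟩

/-- the line -/
def Ln (K : Type*) [RCLike K] : Set (PP K) := {A | dg A.1 2 = 0}

theorem ln_closed : IsClosed (Ln K) := isClosed_eq (dg_cont 2) continuous_const

theorem ln_compl : (Ln K)ᶜ = (chart (K := K) 2).source := by
  ext A
  change ¬ (dg A.1 2 = 0) ↔ A.1 2 2 ≠ 0
  rw [entry_diag A.2]
  simp

/-- the complement of the line -/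
noncomputable def complHomeo {E : Type*} [TopologicalSpace E] (κ : (Fin 2 → K) ≃ₜ E) :
    ((Ln K)ᶜ : Set (PP K)) ≃ₜ E :=
  (Homeomorph.setCongr ln_compl).trans
    ((chart (K := K) 2).toHomeomorphSourceTarget.trans
      ((Homeomorph.Set.univ (Fin 2 → K)).trans κ))

section sphere

variable {d : ℕ} (ι : EuclideanSpace ℝ (Fin d) ≃ₗᵢ[ℝ] K)

theorem euc_norm (x : ℝ) (y : EuclideanSpace ℝ (Fin d)) :
    ‖(WithLp.toLp 2 (Fin.cons x (WithLp.ofLp y)) : EuclideanSpace ℝ (Fin (d + 1)))‖ ^ 2 =
      x ^ 2 + ‖y‖ ^ 2 := by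
  rw [EuclideanSpace.norm_sq_eq, EuclideanSpace.norm_sq_eq, Fin.sum_univ_succ]
  simp

/-- coordinates of the line in the unit sphere -/
noncomputable def lnMap (A : PP K) : EuclideanSpace ℝ (Fin (d + 1)) :=
  WithLp.toLp 2 (Fin.cons (dg A.1 0 - dg A.1 1) (WithLp.ofLp (ι.symm (2 * A.1 0 1))))

theorem lnMap_norm {A : PP K} (hA : A ∈ Ln K) : ‖lnMap ι A‖ = 1 := by
  have h1 : ‖lnMap ι A‖ ^ 2 = 1 := by
    rw [lnMap, euc_norm, LinearIsometryEquiv.norm_map, norm_mul, mul_pow, entry_norm A.2]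
    have h2 := dg_sum A.2
    rw [Fin.sum_univ_three, (hA : dg A.1 2 = 0), add_zero] at h2
    have h3 : dg A.1 1 = 1 - dg A.1 0 := by linarith
    rw [h3]
    simp
    ring
  have h2 := norm_nonneg (lnMap ι A)
  nlinarith

theorem ln_zero {A : PP K} (hA : A ∈ Ln K) (i : Fin 3) : A.1 i 2 = 0 ∧ A.1 2 i = 0 := by
  constructor
  · have h1 := entry_norm A.2 i 2
    rw [(hA : dg A.1 2 = 0), mul_zero] at h1
    exact norm_eq_zero.1 (pow_eq_zero_iff (two_ne_zero) |>.1 h1)
  · have h1 := entry_norm A.2 2 i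
    rw [(hA : dg A.1 2 = 0), zero_mul] at h1
    exact norm_eq_zero.1 (pow_eq_zero_iff (two_ne_zero) |>.1 h1)

theorem lnMap_inj {A B : PP K} (hA : A ∈ Ln K) (hB : B ∈ Ln K) (h : lnMap ι A = lnMap ι B) :
    A = B := by
  have h0 : (Fin.cons (dg A.1 0 - dg A.1 1) (WithLp.ofLp (ι.symm (2 * A.1 0 1))) :
      Fin (d + 1) → ℝ) =
      Fin.cons (dg B.1 0 - dg B.1 1) (WithLp.ofLp (ι.symm (2 * B.1 0 1))) :=
    WithLp.toLp_injective 2 h
  obtain ⟨h1, h2⟩ := Fin.cons_injective2 h0
  have h3 : (2 : K) * A.1 0 1 = 2 * B.1 0 1 := ι.symm.injective (WithLp.ofLp_injective 2 h2)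
  have h01 : A.1 0 1 = B.1 0 1 := mul_left_cancel₀ two_ne_zero h3
  have h10 : A.1 1 0 = B.1 1 0 := by
    rw [← entry_star A.2, ← entry_star B.2, h01]
  have sA := dg_sum A.2
  have sB := dg_sum B.2
  rw [Fin.sum_univ_three, (hA : dg A.1 2 = 0), add_zero] at sA
  rw [Fin.sum_univ_three, (hB : dg B.1 2 = 0), add_zero] at sB
  have h00 : A.1 0 0 = B.1 0 0 := by
    rw [entry_diag A.2, entry_diag B.2]
    congr 1
    linarith
  have h11 : A.1 1 1 = B.1 1 1 := by
    rw [entry_diag A.2, entry_diag B.2]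
    congr 1
    linarith
  apply Subtype.ext
  funext i j
  fin_cases i <;> fin_cases j
  · exact h00
  · exact h01
  · exact (ln_zero hA 0).1.trans (ln_zero hB 0).1.symm
  · exact h10
  · exact h11
  · exact (ln_zero hA 1).1.trans (ln_zero hB 1).1.symm
  · exact (ln_zero hA 0).2.trans (ln_zero hB 0).2.symm
  · exact (ln_zero hA 1).2.trans (ln_zero hB 1).2.symm
  · exact (ln_zero hA 2).2.trans (ln_zero hB 2).2.symm

theorem exists_vec {x : ℝ} {w : K} (h : x ^ 2 + ‖w‖ ^ 2 = 1) :
    ∃ v : Fin 3 → K, v 2 = 0 ∧ ∑ i, ‖v i‖ ^ 2 = 1 ∧ ‖v 0‖ ^ 2 - ‖v 1‖ ^ 2 = x ∧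
      2 * (v 0 * star (v 1)) = w := by
  have hx : 0 ≤ 1 + x := by nlinarith [sq_nonneg ‖w‖]
  rcases eq_or_lt_of_le hx with h0 | h0
  · have hx1 : x = -1 := by linarith
    subst hx1
    have hw : ‖w‖ ^ 2 = 0 := by linarith
    have hw' : w = 0 := norm_eq_zero.1 (pow_eq_zero_iff (two_ne_zero) |>.1 hw)
    refine ⟨![0, 1, 0], rfl, ?_, ?_, ?_⟩
    · simp [Fin.sum_univ_three]
    · simp
    · simp [hw']
  · set s : ℝ := √((1 + x) / 2) with hs
    have hs0 : 0 < s := Real.sqrt_pos.2 (by linarith)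
    have hs2 : s ^ 2 = (1 + x) / 2 := Real.sq_sqrt (by linarith)
    have hsK : (s : K) ≠ 0 := RCLike.ofReal_ne_zero.2 hs0.ne'
    have h1 : ‖star w / (2 * (s : K))‖ ^ 2 = (1 - x) / 2 := by
      rw [norm_div, norm_star, norm_mul, RCLike.norm_ofReal, abs_of_pos hs0, div_pow, mul_pow, hs2]
      have h2 : ‖w‖ ^ 2 = (1 - x) * (1 + x) := by linarith
      rw [h2]
      have : (1 + x) ≠ 0 := h0.ne'
      simp
      field_simp
    refine ⟨![(s : K), star w / (2 * (s : K)), 0], rfl, ?_, ?_, ?_⟩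
    · rw [Fin.sum_univ_three]
      change ‖(s : K)‖ ^ 2 + ‖star w / (2 * (s : K))‖ ^ 2 + ‖(0 : K)‖ ^ 2 = 1
      rw [h1, RCLike.norm_ofReal, sq_abs, hs2, norm_zero]
      ring
    · change ‖(s : K)‖ ^ 2 - ‖star w / (2 * (s : K))‖ ^ 2 = x
      rw [h1, RCLike.norm_ofReal, sq_abs, hs2]
      ring
    · change 2 * ((s : K) * star (star w / (2 * (s : K)))) = w
      rw [star_div₀, star_star, star_mul']
      have e1 : star (s : K) = (s : K) := by simp
      have e2 : star (2 : K) = 2 := by simp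
      rw [e1, e2]
      field_simp

theorem lnMap_surj (y : EuclideanSpace ℝ (Fin (d + 1))) (hy : ‖y‖ = 1) :
    ∃ A ∈ Ln K, lnMap ι A = y := by
  set x : ℝ := y 0 with hx
  set t : EuclideanSpace ℝ (Fin d) := WithLp.toLp 2 (fun i => y i.succ) with ht
  have e : y = WithLp.toLp 2 (Fin.cons x (WithLp.ofLp t)) := by
    ext i
    refine Fin.cases ?_ (fun j => ?_) i
    · simp [hx]
    · simp [ht]
  have h1 : x ^ 2 + ‖ι t‖ ^ 2 = 1 := by
    rw [LinearIsometryEquiv.norm_map, ← euc_norm, ← e, hy, one_pow]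
  obtain ⟨v, hv2, hv, hvx, hvw⟩ := exists_vec h1
  refine ⟨⟨fun i j => v i * star (v j), v, hv, fun _ _ => rfl⟩, ?_, ?_⟩
  · change dg (fun i j => v i * star (v j)) 2 = 0
    rw [dg, hv2]; simp
  · rw [e, lnMap]
    have a1 : dg (fun i j => v i * star (v j)) 0 - dg (fun i j => v i * star (v j)) 1 = x := by
      rw [dg_vec (v := v) (fun _ _ => rfl), dg_vec (v := v) (fun _ _ => rfl), hvx]
    have a2 : WithLp.ofLp (ι.symm (2 * (v 0 * star (v 1)))) = WithLp.ofLp t := by
      rw [hvw, LinearIsometryEquiv.symm_apply_apply]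
    exact congrArg (WithLp.toLp 2) (congrArg₂ (Fin.cons (α := fun _ => ℝ)) a1 a2)

theorem lnMap_cont : Continuous fun A : PP K => lnMap ι A := by
  unfold lnMap
  refine (PiLp.continuous_toLp 2 _).comp ?_
  apply continuous_pi
  intro i
  refine Fin.cases ?_ (fun j => ?_) i
  · simp only [Fin.cons_zero]
    exact (dg_cont 0).sub (dg_cont 1)
  · simp only [Fin.cons_succ]
    have h1 : Continuous fun A : PP K => ι.symm (2 * A.1 0 1) :=
      ι.symm.continuous.comp (continuous_const.mul (entry_cont 0 1))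
    exact (continuous_apply j).comp ((PiLp.continuous_ofLp 2 _).comp h1)

/-- the line is a sphere -/
noncomputable def lnHomeo : Ln K ≃ₜ Metric.sphere (0 : EuclideanSpace ℝ (Fin (d + 1))) 1 := by
  haveI : CompactSpace (Ln K) := isCompact_iff_compactSpace.1 ln_closed.isCompact
  let f : Ln K → Metric.sphere (0 : EuclideanSpace ℝ (Fin (d + 1))) 1 :=
    fun A => ⟨lnMap ι A, by rw [mem_sphere_zero_iff_norm]; exact lnMap_norm ι A.2⟩
  have hf : Function.Bijective f := by
    constructor
    · intro A B h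
      exact Subtype.ext (lnMap_inj ι A.2 B.2 (congrArg Subtype.val h))
    · rintro ⟨y, hy⟩
      rw [mem_sphere_zero_iff_norm] at hy
      obtain ⟨A, hA, h⟩ := lnMap_surj ι y hy
      exact ⟨⟨A, hA⟩, Subtype.ext h⟩
  exact Continuous.homeoOfEquivCompactToT2 (f := Equiv.ofBijective f hf)
    (((lnMap_cont ι).comp continuous_subtype_val).subtype_mk _)

end sphere

end Pool.Agent.H71
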