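import Pool.Agent.H71.PlaneEx

/-!
The explicit maps.
-/

set_option autoImplicit false

namespace Pool.Agent.H71

open Pool.Agent.Helper775.Tight
open Set Topology SoftCx
open scoped InnerProductSpace

/-- A convex hypersurface: the boundary of a compact convex set with nonempty interior. -/
def IsConvexHypersurface {N : ℕ} (X : Set (EuclideanSpace ℝ (Fin N))) : Prop :=
  ∃ C : Set (EuclideanSpace ℝ (Fin N)),
    IsCompact C ∧ Convex ℝ C ∧ (interior C).Nonempty ∧ X = frontier C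

/-- `ℝP² → ℝ³` -/
noncomputable def fR (A : PP ℝ) : EuclideanSpace ℝ (Fin 3) :=
  !₂[A.1 0 0 - A.1 1 1, 2 * A.1 0 1, A.1 0 0 + A.1 1 1]

/-- `ℂP² → ℝ⁴` -/
noncomputable def fC (A : PP ℂ) : EuclideanSpace ℝ (Fin 4) :=
  !₂[(A.1 0 0).re - (A.1 1 1).re, 2 * (A.1 0 1).re, 2 * (A.1 0 1).im, (A.1 0 0).re + (A.1 1 1).re]

/-- `ℂP² → ℝ⁵` -/
noncomputable def fC' (A : PP ℂ) : EuclideanSpace ℝ (Fin 5) :=
  !₂[(A.1 0 0).re - (A.1 1 1).re, 2 * (A.1 0 1).re, 2 * (A.1 0 1).im, (A.1 0 0).re + (A.1 1 1).re,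
    2 * (A.1 0 2).re]

theorem toLp_cont {N : ℕ} {X : Type*} [TopologicalSpace X] {g : X → Fin N → ℝ}
    (h : ∀ i, Continuous fun x => g x i) :
    Continuous fun x => (WithLp.toLp 2 (g x) : EuclideanSpace ℝ (Fin N)) :=
  (PiLp.continuous_toLp 2 _).comp (continuous_pi h)

theorem fR_cont : Continuous fR := by
  apply toLp_cont
  intro i
  have a := entry_cont (K := ℝ)
  fin_cases i
  · exact (a 0 0).sub (a 1 1)
  · exact continuous_const.mul (a 0 1)
  · exact (a 0 0).add (a 1 1)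

theorem fC_cont : Continuous fC := by
  apply toLp_cont
  intro i
  have a := fun i j => Complex.continuous_re.comp (entry_cont (K := ℂ) i j)
  have b := fun i j => Complex.continuous_im.comp (entry_cont (K := ℂ) i j)
  fin_cases i
  · exact (a 0 0).sub (a 1 1)
  · exact continuous_const.mul (a 0 1)
  · exact continuous_const.mul (b 0 1)
  · exact (a 0 0).add (a 1 1)

theorem fC'_cont : Continuous fC' := by
  apply toLp_cont
  intro i
  have a := fun i j => Complex.continuous_re.comp (entry_cont (K := ℂ) i j)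
  have b := fun i j => Complex.continuous_im.comp (entry_cont (K := ℂ) i j)
  fin_cases i
  · exact (a 0 0).sub (a 1 1)
  · exact continuous_const.mul (a 0 1)
  · exact continuous_const.mul (b 0 1)
  · exact (a 0 0).add (a 1 1)
  · exact continuous_const.mul (a 0 2)

theorem mem_hf {K : Type*} [RCLike K] {B : Matrix (Fin 3) (Fin 3) K} {A : PP K} :
    A ∈ Hf B ↔ 0 ≤ RCLike.re (∑ i, ∑ j, B i j * A.1 j i) := Iff.rfl

theorem fR_tight : TightMap fR ∧ CechTightMap fR := by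
  apply tight_of good_ln_real
  intro z t
  refine ⟨!![z 0 + z 2 - t, z 1, 0; z 1, -z 0 + z 2 - t, 0; 0, 0, -t], ?_, ?_⟩
  · ext i j
    fin_cases i <;> fin_cases j <;> simp
  · ext A
    have h1 := dg_sum A.2
    rw [Fin.sum_univ_three] at h1
    simp only [dg, RCLike.re_to_real] at h1
    have h2 : A.1 1 0 = A.1 0 1 := by
      have := entry_star A.2 0 1
      rw [← this]; simp
    have h3 : RCLike.re (∑ i, ∑ j, (!![z 0 + z 2 - t, z 1, 0; z 1, -z 0 + z 2 - t, 0; 0, 0, -t] :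
        Matrix (Fin 3) (Fin 3) ℝ) i j * A.1 j i) = ⟪z, fR A⟫_ℝ - t := by
      simp only [fR, Fin.sum_univ_three, PiLp.inner_apply]
      simp
      rw [h2]
      linear_combination (-t) * h1
    rw [mem_hf, h3, sub_nonneg]
    rfl

theorem fC_tight : TightMap fC ∧ CechTightMap fC := by
  apply tight_of good_ln_complex
  intro z t
  refine ⟨!![((z 0 + z 3 - t : ℝ) : ℂ), ⟨z 1, z 2⟩, 0; ⟨z 1, -z 2⟩, ((-z 0 + z 3 - t : ℝ) : ℂ), 0;
    0, 0, ((-t : ℝ) : ℂ)], ?_, ?_⟩
  · ext i j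
    fin_cases i <;> fin_cases j <;> apply Complex.ext <;> simp
  · ext A
    have h1 := dg_sum A.2
    rw [Fin.sum_univ_three] at h1
    simp only [dg] at h1
    have h2 : A.1 1 0 = star (A.1 0 1) := (entry_star A.2 0 1).symm
    have h3 : RCLike.re (∑ i, ∑ j, (!![((z 0 + z 3 - t : ℝ) : ℂ), ⟨z 1, z 2⟩, 0;
        ⟨z 1, -z 2⟩, ((-z 0 + z 3 - t : ℝ) : ℂ), 0; 0, 0, ((-t : ℝ) : ℂ)] :
        Matrix (Fin 3) (Fin 3) ℂ) i j * A.1 j i) = ⟪z, fC A⟫_ℝ - t := by
      simp only [fC, Fin.sum_univ_three, PiLp.inner_apply]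
      simp [Fin.sum_univ_four]
      rw [h2]
      simp at h1 ⊢
      linear_combination (-t) * h1
    rw [mem_hf, h3, sub_nonneg]
    rfl

theorem fC'_tight : TightMap fC' ∧ CechTightMap fC' := by
  apply tight_of good_ln_complex
  intro z t
  refine ⟨!![((z 0 + z 3 - t : ℝ) : ℂ), ⟨z 1, z 2⟩, ((z 4 : ℝ) : ℂ);
    ⟨z 1, -z 2⟩, ((-z 0 + z 3 - t : ℝ) : ℂ), 0; ((z 4 : ℝ) : ℂ), 0, ((-t : ℝ) : ℂ)], ?_, ?_⟩
  · ext i j
    fin_cases i <;> fin_cases j <;> apply Complex.ext <;> simp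
  · ext A
    have h1 := dg_sum A.2
    rw [Fin.sum_univ_three] at h1
    simp only [dg] at h1
    have h2 : A.1 1 0 = star (A.1 0 1) := (entry_star A.2 0 1).symm
    have h2' : A.1 2 0 = star (A.1 0 2) := (entry_star A.2 0 2).symm
    have h3 : RCLike.re (∑ i, ∑ j, (!![((z 0 + z 3 - t : ℝ) : ℂ), ⟨z 1, z 2⟩, ((z 4 : ℝ) : ℂ);
        ⟨z 1, -z 2⟩, ((-z 0 + z 3 - t : ℝ) : ℂ), 0; ((z 4 : ℝ) : ℂ), 0, ((-t : ℝ) : ℂ)] :
        Matrix (Fin 3) (Fin 3) ℂ) i j * A.1 j i) = ⟪z, fC' A⟫_ℝ - t := by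
      simp only [fC', Fin.sum_univ_three, PiLp.inner_apply]
      simp [Fin.sum_univ_five]
      rw [h2, h2']
      simp at h1 ⊢
      linear_combination (-t) * h1
    rw [mem_hf, h3, sub_nonneg]
    rfl

/-- the point with homogeneous coordinates `w` -/
noncomputable def pt {K : Type*} [RCLike K] (w : Fin 3 → K) (h : 0 < ∑ k, ‖w k‖ ^ 2) : PP K :=
  ⟨ptf w, ptf_mem h⟩

theorem pt_apply {K : Type*} [RCLike K] (w : Fin 3 → K) (h : 0 < ∑ k, ‖w k‖ ^ 2) (i j : Fin 3) :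
    (pt w h).1 i j = w i * star (w j) / ((∑ k, ‖w k‖ ^ 2 : ℝ) : K) := rfl

theorem fR_subst : Substantial fR := by
  intro z t hz
  by_contra hcon
  push Not at hcon
  apply hz
  have e3 := hcon (pt ![0, 0, 1] (by simp [Fin.sum_univ_three]))
  have e0 := hcon (pt ![1, 0, 0] (by simp [Fin.sum_univ_three]))
  have e1 := hcon (pt ![0, 1, 0] (by simp [Fin.sum_univ_three]))
  have e2 := hcon (pt ![1, 1, 0] (by simp [Fin.sum_univ_three]))
  simp [fR, PiLp.inner_apply, pt_apply, Fin.sum_univ_three] at e3 e0 e1 e2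
  ext i
  fin_cases i <;> simp <;> linarith

theorem nsq2 : Complex.normSq (1 + 1) = 4 := by
  rw [Complex.normSq_apply]; norm_num

theorem idiv : (Complex.I / (1 + 1)).re = 0 ∧ (Complex.I / (1 + 1)).im = 1 / 2 := by
  have : (Complex.I / (1 + 1)) = ⟨0, 1 / 2⟩ := by
    rw [div_eq_iff (by norm_num)]
    apply Complex.ext <;> simp <;> norm_num
  rw [this]
  exact ⟨rfl, rfl⟩

theorem fC_subst : Substantial fC := by
  intro z t hz
  by_contra hcon
  push Not at hcon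
  apply hz
  have e3 := hcon (pt ![0, 0, 1] (by simp [Fin.sum_univ_three]))
  have e0 := hcon (pt ![1, 0, 0] (by simp [Fin.sum_univ_three]))
  have e1 := hcon (pt ![0, 1, 0] (by simp [Fin.sum_univ_three]))
  have e2 := hcon (pt ![1, 1, 0] (by simp [Fin.sum_univ_three]))
  have e4 := hcon (pt ![Complex.I, 1, 0] (by simp [Fin.sum_univ_three]))
  simp [fC, PiLp.inner_apply, pt_apply, Fin.sum_univ_three, Fin.sum_univ_four, nsq2, idiv.1,
    idiv.2] at e3 e0 e1 e2 e4
  ext i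
  fin_cases i <;> simp <;> linarith

theorem fC'_subst : Substantial fC' := by
  intro z t hz
  by_contra hcon
  push Not at hcon
  apply hz
  have e3 := hcon (pt ![0, 0, 1] (by simp [Fin.sum_univ_three]))
  have e0 := hcon (pt ![1, 0, 0] (by simp [Fin.sum_univ_three]))
  have e1 := hcon (pt ![0, 1, 0] (by simp [Fin.sum_univ_three]))
  have e2 := hcon (pt ![1, 1, 0] (by simp [Fin.sum_univ_three]))
  have e4 := hcon (pt ![Complex.I, 1, 0] (by simp [Fin.sum_univ_three]))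
  have e5 := hcon (pt ![1, 0, 1] (by simp [Fin.sum_univ_three]))
  simp [fC', PiLp.inner_apply, pt_apply, Fin.sum_univ_three, Fin.sum_univ_five, nsq2, idiv.1,
    idiv.2] at e3 e0 e1 e2 e4 e5
  ext i
  fin_cases i <;> simp <;> linarith

theorem not_hyp {N : ℕ} {X : Set (EuclideanSpace ℝ (Fin N))} (i : Fin N)
    (h1 : ∀ y ∈ X, y i ≤ 1) {p q : EuclideanSpace ℝ (Fin N)} (hp : p ∈ X) (hq : q ∈ X)
    (hpi : p i = 1) (hqi : q i = 1) (hm : (1 / 2 : ℝ) • p + (1 / 2 : ℝ) • q ∉ X) :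
    ¬ IsConvexHypersurface X := by
  rintro ⟨C, hC, hconv, -, rfl⟩
  have hfr : frontier C ⊆ C := hC.isClosed.frontier_subset
  have hc : Continuous fun y : EuclideanSpace ℝ (Fin N) => y i := by fun_prop
  obtain ⟨m, hmC, hmax⟩ := hC.exists_isMaxOn ⟨p, hfr hp⟩ hc.continuousOn
  -- a point of maximal coordinate is in the frontier
  have key : ∀ y ∈ C, m i ≤ y i → y ∈ frontier C := by
    intro y hy hyi
    by_contra hn
    have hint : y ∈ interior C := by
      by_contra h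
      exact hn ⟨subset_closure hy, h⟩
    obtain ⟨ε, hε, hb⟩ := Metric.isOpen_iff.1 isOpen_interior y hint
    have h2 : y + EuclideanSpace.single i (ε / 2) ∈ Metric.ball y ε := by
      rw [Metric.mem_ball, dist_eq_norm, add_sub_cancel_left, PiLp.norm_single,
        Real.norm_eq_abs, abs_of_pos (by positivity)]
      linarith
    have h3 := hmax (interior_subset (hb h2))
    have h4 : (y + EuclideanSpace.single i (ε / 2)) i = y i + ε / 2 := by simp
    have h5 : (y + EuclideanSpace.single i (ε / 2)) i ≤ m i := h3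
    rw [h4] at h5
    linarith
  have hm1 : m i ≤ 1 := h1 m (key m hmC le_rfl)
  have hmid : (1 / 2 : ℝ) • p + (1 / 2 : ℝ) • q ∈ C :=
    hconv (hfr hp) (hfr hq) (by norm_num) (by norm_num) (by norm_num)
  apply hm
  apply key _ hmid
  have : ((1 / 2 : ℝ) • p + (1 / 2 : ℝ) • q) i = 1 := by
    simp [hpi, hqi]; norm_num
  rw [this]
  exact hm1

theorem not_conv {N : ℕ} {X : Set (EuclideanSpace ℝ (Fin N))}
    {p q : EuclideanSpace ℝ (Fin N)} (hp : p ∈ X) (hq : q ∈ X)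
    (hm : (1 / 2 : ℝ) • p + (1 / 2 : ℝ) • q ∉ X) : ¬ Convex ℝ X := fun h =>
  hm (h hp hq (by norm_num) (by norm_num) (by norm_num))

/-- the two points -/
noncomputable def p0 (K : Type*) [RCLike K] : PP K :=
  pt ![1, 0, 0] (by simp [Fin.sum_univ_three])

/-- the two points -/
noncomputable def p1 (K : Type*) [RCLike K] : PP K :=
  pt ![0, 1, 0] (by simp [Fin.sum_univ_three])

/-- the midpoint of the two points is missed -/
theorem missed {K : Type*} [RCLike K] (A : PP K) (h1 : dg A.1 0 - dg A.1 1 = 0)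
    (h2 : A.1 0 1 = 0) (h3 : dg A.1 0 + dg A.1 1 = 1) : False := by
  have h4 := entry_norm A.2 0 1
  rw [h2, norm_zero] at h4
  have h5 : dg A.1 0 = 1 / 2 := by linarith
  have h6 : dg A.1 1 = 1 / 2 := by linarith
  rw [h5, h6] at h4
  norm_num at h4

theorem dg_le {K : Type*} [RCLike K] (A : PP K) : dg A.1 0 + dg A.1 1 ≤ 1 := by
  have h1 := dg_sum A.2
  rw [Fin.sum_univ_three] at h1
  have h2 := dg_nonneg A.2 2
  linarith

theorem fR_mid : (1 / 2 : ℝ) • fR (p0 ℝ) + (1 / 2 : ℝ) • fR (p1 ℝ) ∉ range fR := by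
  rintro ⟨A, hA⟩
  have h0 := congrArg (fun y : EuclideanSpace ℝ (Fin 3) => y 0) hA
  have h1 := congrArg (fun y : EuclideanSpace ℝ (Fin 3) => y 1) hA
  have h2 := congrArg (fun y : EuclideanSpace ℝ (Fin 3) => y 2) hA
  simp [fR, p0, p1, pt_apply, Fin.sum_univ_three] at h0 h1 h2
  refine missed A ?_ h1 ?_
  · simp [dg]; linarith
  · simp [dg]; linarith

theorem fR_not : ¬ IsConvexHypersurface (range fR) := by
  refine not_hyp 2 ?_ (mem_range_self (p0 ℝ)) (mem_range_self (p1 ℝ)) ?_ ?_ fR_mid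
  · rintro _ ⟨A, rfl⟩
    exact dg_le A
  · simp [fR, p0, pt_apply, Fin.sum_univ_three]
  · simp [fR, p1, pt_apply, Fin.sum_univ_three]

theorem fC_mid : (1 / 2 : ℝ) • fC (p0 ℂ) + (1 / 2 : ℝ) • fC (p1 ℂ) ∉ range fC := by
  rintro ⟨A, hA⟩
  have h0 := congrArg (fun y : EuclideanSpace ℝ (Fin 4) => y 0) hA
  have h1 := congrArg (fun y : EuclideanSpace ℝ (Fin 4) => y 1) hA
  have h2 := congrArg (fun y : EuclideanSpace ℝ (Fin 4) => y 2) hA
  have h3 := congrArg (fun y : EuclideanSpace ℝ (Fin 4) => y 3) hA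
  simp [fC, p0, p1, pt_apply, Fin.sum_univ_three] at h0 h1 h2 h3
  refine missed A ?_ (Complex.ext h1 h2) ?_
  · simp [dg]; linarith
  · simp [dg]; linarith

theorem fC'_mid : (1 / 2 : ℝ) • fC' (p0 ℂ) + (1 / 2 : ℝ) • fC' (p1 ℂ) ∉ range fC' := by
  rintro ⟨A, hA⟩
  have h0 := congrArg (fun y : EuclideanSpace ℝ (Fin 5) => y 0) hA
  have h1 := congrArg (fun y : EuclideanSpace ℝ (Fin 5) => y 1) hA
  have h2 := congrArg (fun y : EuclideanSpace ℝ (Fin 5) => y 2) hA
  have h3 := congrArg (fun y : EuclideanSpace ℝ (Fin 5) => y 3) hA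
  simp [fC', p0, p1, pt_apply, Fin.sum_univ_three] at h0 h1 h2 h3
  refine missed A ?_ (Complex.ext h1 h2) ?_
  · simp [dg]; linarith
  · simp [dg]; linarith

theorem fC_not : ¬ Convex ℝ (range fC) :=
  not_conv (mem_range_self (p0 ℂ)) (mem_range_self (p1 ℂ)) fC_mid

theorem fC'_not : ¬ IsConvexHypersurface (range fC') := by
  refine not_hyp 3 ?_ (mem_range_self (p0 ℂ)) (mem_range_self (p1 ℂ)) ?_ ?_ fC'_mid
  · rintro _ ⟨A, rfl⟩
    exact dg_le A
  · simp [fC', p0, pt_apply, Fin.sum_univ_three]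
  · simp [fC', p1, pt_apply, Fin.sum_univ_three]

end Pool.Agent.H71
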