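import Pool.Agent.H71.ASS

/-!
The projective plane over `ℝ` or `ℂ` as the set of matrices `v v*`.
-/

set_option autoImplicit false

namespace Pool.Agent.H71

open Set Topology

/-- the projective plane over `K`: the matrices `v v*`, `v` a unit vector of `K³`. -/
def PP (K : Type*) [RCLike K] : Set (Fin 3 → Fin 3 → K) :=
  {A | ∃ v : Fin 3 → K, ∑ i, ‖v i‖ ^ 2 = 1 ∧ ∀ i j, A i j = v i * star (v j)}

section basic

variable {K : Type*} [RCLike K]

theorem pp_compact : IsCompact (PP K) := by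
  have h1 : IsCompact {v : Fin 3 → K | ∑ i, ‖v i‖ ^ 2 = 1} := by
    have hcl : IsClosed {v : Fin 3 → K | ∑ i, ‖v i‖ ^ 2 = 1} :=
      isClosed_eq (by fun_prop) continuous_const
    have : ProperSpace K := FiniteDimensional.proper_rclike K K
    refine (isCompact_closedBall (0 : Fin 3 → K) 1).of_isClosed_subset hcl ?_
    intro v hv
    rw [mem_closedBall_zero_iff, pi_norm_le_iff_of_nonneg zero_le_one]
    intro i
    have h2 : ‖v i‖ ^ 2 ≤ 1 := by
      rw [← (hv : ∑ i, ‖v i‖ ^ 2 = 1)]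
      exact Finset.single_le_sum (f := fun i => ‖v i‖ ^ 2) (fun j _ => by positivity)
        (Finset.mem_univ i)
    nlinarith [norm_nonneg (v i)]
  have h2 : PP K = (fun v : Fin 3 → K => fun i j => v i * star (v j)) ''
      {v : Fin 3 → K | ∑ i, ‖v i‖ ^ 2 = 1} := by
    ext A
    constructor
    · rintro ⟨v, hv, h⟩
      exact ⟨v, hv, by funext i j; exact (h i j).symm⟩
    · rintro ⟨v, hv, rfl⟩
      exact ⟨v, hv, fun i j => rfl⟩
  rw [h2]
  exact h1.image (by fun_prop)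

instance : CompactSpace (PP K) := isCompact_iff_compactSpace.1 pp_compact

/-- diagonal entries -/
def dg (A : Fin 3 → Fin 3 → K) (i : Fin 3) : ℝ := RCLike.re (A i i)

theorem dg_cont' (i : Fin 3) : Continuous fun A : Fin 3 → Fin 3 → K => dg A i :=
  RCLike.continuous_re.comp (by fun_prop)

theorem dg_cont (i : Fin 3) : Continuous fun A : PP K => dg A.1 i :=
  (dg_cont' i).comp continuous_subtype_val

theorem dg_vec {v : Fin 3 → K} {A : Fin 3 → Fin 3 → K} (h : ∀ i j, A i j = v i * star (v j))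
    (i : Fin 3) : dg A i = ‖v i‖ ^ 2 := by
  rw [dg, h, RCLike.star_def, RCLike.mul_conj]
  norm_cast

theorem dg_nonneg {A : Fin 3 → Fin 3 → K} (hA : A ∈ PP K) (i : Fin 3) : 0 ≤ dg A i := by
  obtain ⟨v, _, h⟩ := hA
  rw [dg_vec h]; positivity

theorem dg_sum {A : Fin 3 → Fin 3 → K} (hA : A ∈ PP K) : ∑ i, dg A i = 1 := by
  obtain ⟨v, hv, h⟩ := hA
  simp only [dg_vec h]; exact hv

theorem entry_diag {A : Fin 3 → Fin 3 → K} (hA : A ∈ PP K) (i : Fin 3) : A i i = (dg A i : K) := by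
  obtain ⟨v, _, h⟩ := hA
  rw [dg_vec h, h, RCLike.star_def, RCLike.mul_conj]
  norm_cast

theorem entry_star {A : Fin 3 → Fin 3 → K} (hA : A ∈ PP K) (i j : Fin 3) :
    star (A i j) = A j i := by
  obtain ⟨v, _, h⟩ := hA
  rw [h, h, star_mul', star_star, mul_comm]

theorem entry_rank {A : Fin 3 → Fin 3 → K} (hA : A ∈ PP K) (i j k l : Fin 3) :
    A i j * A k l = A i l * A k j := by
  obtain ⟨v, _, h⟩ := hA
  simp only [h]; ring

theorem entry_norm {A : Fin 3 → Fin 3 → K} (hA : A ∈ PP K) (i j : Fin 3) :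
    ‖A i j‖ ^ 2 = dg A i * dg A j := by
  obtain ⟨v, _, h⟩ := hA
  rw [h, norm_mul, norm_star, mul_pow, dg_vec h, dg_vec h]

/-- the point of the projective plane given by a nonzero vector. -/
noncomputable def ptf (w : Fin 3 → K) : Fin 3 → Fin 3 → K :=
  fun i j => w i * star (w j) / ((∑ k, ‖w k‖ ^ 2 : ℝ) : K)

theorem ptf_mem {w : Fin 3 → K} (hw : 0 < ∑ k, ‖w k‖ ^ 2) : ptf w ∈ PP K := by
  set s : ℝ := ∑ k, ‖w k‖ ^ 2 with hs
  refine ⟨fun i => w i / ((√s : ℝ) : K), ?_, fun i j => ?_⟩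
  · simp only [norm_div, div_pow, RCLike.norm_ofReal, sq_abs, Real.sq_sqrt hw.le]
    rw [← Finset.sum_div, ← hs, div_self hw.ne']
  · rw [ptf, ← hs, star_div₀]
    have h1 : star ((√s : ℝ) : K) = ((√s : ℝ) : K) := by simp
    rw [h1, div_mul_div_comm]
    congr 1
    rw [← RCLike.ofReal_mul, Real.mul_self_sqrt hw.le]

theorem ptf_smul {w : Fin 3 → K} {c : K} (hc : c ≠ 0) : ptf (fun i => c * w i) = ptf w := by
  funext i j
  simp only [ptf, norm_mul, mul_pow, star_mul']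
  rw [← Finset.mul_sum, RCLike.ofReal_mul]
  have h1 : ((‖c‖ ^ 2 : ℝ) : K) = c * star c := by
    rw [RCLike.star_def, RCLike.mul_conj]; push_cast; rfl
  rw [h1]
  have h2 : c * star c ≠ 0 := mul_ne_zero hc (star_ne_zero.2 hc)
  rw [show c * w i * (star c * star (w j)) = (c * star c) * (w i * star (w j)) by ring,
    mul_div_mul_left _ _ h2]

theorem ptf_unit {v : Fin 3 → K} {A : Fin 3 → Fin 3 → K} (hv : ∑ i, ‖v i‖ ^ 2 = 1)
    (h : ∀ i j, A i j = v i * star (v j)) : ptf v = A := by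
  funext i j
  rw [ptf, hv, h]; simp

/-- rescaling of coordinates -/
noncomputable def scl (r : Fin 3 → ℝ) (A : Fin 3 → Fin 3 → K) : Fin 3 → Fin 3 → K :=
  fun i j => ((r i : ℝ) : K) * ((r j : ℝ) : K) * A i j / ((∑ k, r k ^ 2 * dg A k : ℝ) : K)

theorem scl_mem {r : Fin 3 → ℝ} {A : Fin 3 → Fin 3 → K} (hA : A ∈ PP K)
    (h0 : 0 < ∑ k, r k ^ 2 * dg A k) : scl r A ∈ PP K := by
  obtain ⟨v, hv, h⟩ := hA
  have e : ∀ k, r k ^ 2 * dg A k = ‖((r k : ℝ) : K) * v k‖ ^ 2 := by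
    intro k
    rw [dg_vec h, norm_mul, mul_pow, RCLike.norm_ofReal, sq_abs]
  have h1 : scl r A = ptf fun i => ((r i : ℝ) : K) * v i := by
    funext i j
    simp only [scl, ptf, e, h]
    congr 1
    rw [star_mul']
    have h1 : star ((r j : ℝ) : K) = ((r j : ℝ) : K) := by simp
    rw [h1]; ring
  rw [h1]
  apply ptf_mem
  simpa only [e] using h0

theorem dg_scl (r : Fin 3 → ℝ) (A : Fin 3 → Fin 3 → K) (i : Fin 3) :
    dg (scl r A) i = r i ^ 2 * dg A i / ∑ k, r k ^ 2 * dg A k := by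
  rw [dg, scl]
  rw [← RCLike.ofReal_mul, RCLike.div_re_ofReal, RCLike.re_ofReal_mul, ← sq]
  rfl

theorem scl_one {A : Fin 3 → Fin 3 → K} (hA : A ∈ PP K) {r : Fin 3 → ℝ} (hr : ∀ i, r i = 1) :
    scl r A = A := by
  funext i j
  simp only [scl, hr, one_pow, one_mul, dg_sum hA, RCLike.ofReal_one, div_one]

end basic

section region

variable {K : Type*} [RCLike K]

/-- a region of the projective plane bounded by a diagonal quadric. -/
def Rg (K : Type*) [RCLike K] (μ : Fin 3 → ℝ) : Set (PP K) := {A | 0 ≤ ∑ i, μ i * dg A.1 i}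

/-- its core -/
def Zr (K : Type*) [RCLike K] (μ : Fin 3 → ℝ) : Set (PP K) := {A | ∀ i, μ i < 0 → dg A.1 i = 0}

/-- weights -/
noncomputable def wt (μ : Fin 3 → ℝ) (t : ℝ) (i : Fin 3) : ℝ := if 0 ≤ μ i then 1 else 1 - t

theorem zr_sub (μ : Fin 3 → ℝ) : Zr K μ ⊆ Rg K μ := by
  intro A hA
  refine Finset.sum_nonneg (f := fun i => μ i * dg A.1 i) ?_
  intro i _
  rcases lt_or_ge (μ i) 0 with h | h
  · rw [hA i h, mul_zero]
  · exact mul_nonneg h (dg_nonneg A.2 i)

theorem wt_pos {μ : Fin 3 → ℝ} {A : PP K} (hA : A ∈ Rg K μ) (t : ℝ) :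
    0 < ∑ k, wt μ t k ^ 2 * dg A.1 k := by
  by_contra hcon
  have hn : ∀ k, 0 ≤ wt μ t k ^ 2 * dg A.1 k := fun k => mul_nonneg (by positivity) (dg_nonneg A.2 k)
  have h0 : ∑ k, wt μ t k ^ 2 * dg A.1 k = 0 :=
    le_antisymm (not_lt.1 hcon) (Finset.sum_nonneg fun k _ => hn k)
  have h1 : ∀ k, 0 ≤ μ k → dg A.1 k = 0 := by
    intro k hk
    have := (Finset.sum_eq_zero_iff_of_nonneg fun k _ => hn k).1 h0 k (Finset.mem_univ k)
    simpa [wt, hk] using this
  have h2 : ∀ k, μ k * dg A.1 k ≤ 0 := by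
    intro k
    rcases lt_or_ge (μ k) 0 with h | h
    · exact mul_nonpos_of_nonpos_of_nonneg h.le (dg_nonneg A.2 k)
    · rw [h1 k h, mul_zero]
  have h3 : ∑ k, μ k * dg A.1 k = 0 :=
    le_antisymm (Finset.sum_nonpos fun k _ => h2 k) hA
  have h4 : ∀ k, dg A.1 k = 0 := by
    intro k
    rcases lt_or_ge (μ k) 0 with h | h
    · have := (Finset.sum_eq_zero_iff_of_nonpos fun k _ => h2 k).1 h3 k (Finset.mem_univ k)
      rcases mul_eq_zero.1 this with h5 | h5
      · exact absurd h5 h.ne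
      · exact h5
    · exact h1 k h
  have h5 := dg_sum A.2
  simp only [h4, Finset.sum_const_zero] at h5
  exact zero_ne_one h5

theorem scl_region {μ : Fin 3 → ℝ} {A : PP K} (hA : A ∈ Rg K μ) {t : ℝ} (h0 : 0 ≤ t)
    (h1 : t ≤ 1) : (⟨scl (wt μ t) A.1, scl_mem A.2 (wt_pos hA t)⟩ : PP K) ∈ Rg K μ := by
  change 0 ≤ ∑ i, μ i * dg (scl (wt μ t) A.1) i
  simp only [dg_scl, mul_div_assoc']
  rw [← Finset.sum_div]
  apply div_nonneg _ (wt_pos hA t).le
  refine le_trans hA (Finset.sum_le_sum fun i _ => ?_)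
  rcases lt_or_ge (μ i) 0 with h | h
  · have e : wt μ t i = 1 - t := by simp [wt, not_le.2 h]
    rw [e]
    have h2 : (1 - t) ^ 2 ≤ 1 := by nlinarith
    have h3 := dg_nonneg A.2 i
    have h4 : (1 - t) ^ 2 * dg A.1 i ≤ dg A.1 i := by nlinarith
    nlinarith
  · have e : wt μ t i = 1 := by simp [wt, h]
    rw [e]; simp

theorem scl_core {μ : Fin 3 → ℝ} {A : PP K} (hA : A ∈ Rg K μ) :
    (⟨scl (wt μ 1) A.1, scl_mem A.2 (wt_pos hA 1)⟩ : PP K) ∈ Zr K μ := by
  intro i hi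
  change dg (scl (wt μ 1) A.1) i = 0
  rw [dg_scl]
  have e : wt μ 1 i = 0 := by simp [wt, not_le.2 hi]
  rw [e]; simp

open Classical in
/-- the homotopy -/
noncomputable def Hr (μ : Fin 3 → ℝ) (t : ℝ) (A : PP K) : PP K :=
  if h : scl (wt μ t) A.1 ∈ PP K then ⟨_, h⟩ else A

theorem hr_eq {μ : Fin 3 → ℝ} {A : PP K} (hA : A ∈ Rg K μ) (t : ℝ) :
    Hr μ t A = ⟨scl (wt μ t) A.1, scl_mem A.2 (wt_pos hA t)⟩ := by
  rw [Hr, dif_pos]

theorem wt_cont (μ : Fin 3 → ℝ) (i : Fin 3) : Continuous fun t => wt μ t i := by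
  by_cases h : 0 ≤ μ i
  · simp only [wt, h, if_true]; fun_prop
  · simp only [wt, h, if_false]; fun_prop

theorem sum_cont (μ : Fin 3 → ℝ) :
    Continuous fun p : ℝ × PP K => ∑ k, wt μ p.1 k ^ 2 * dg p.2.1 k := by
  apply continuous_finsetSum
  intro k _
  exact (((wt_cont μ k).comp continuous_fst).pow 2).mul ((dg_cont k).comp continuous_snd)

theorem hr_cont {μ : Fin 3 → ℝ} {A : PP K} (hA : A ∈ Rg K μ) (t : ℝ) :
    ContinuousAt (fun p : ℝ × PP K => Hr μ p.1 p.2) (t, A) := by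
  rw [ContinuousAt, tendsto_subtype_rng]
  have hpos : ∀ᶠ p : ℝ × PP K in 𝓝 (t, A), 0 < ∑ k, wt μ p.1 k ^ 2 * dg p.2.1 k :=
    (sum_cont μ).continuousAt.eventually (lt_mem_nhds (wt_pos hA t))
  have e : (fun p : ℝ × PP K => scl (wt μ p.1) p.2.1) =ᶠ[𝓝 (t, A)]
      fun p => ((Hr μ p.1 p.2 : PP K) : Fin 3 → Fin 3 → K) := by
    filter_upwards [hpos] with p hp
    rw [Hr, dif_pos (scl_mem p.2.2 hp)]
  refine Filter.Tendsto.congr' e ?_
  have h2 : ((Hr μ t A : PP K) : Fin 3 → Fin 3 → K) = scl (wt μ t) A.1 := by rw [hr_eq hA]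
  rw [h2]
  have h3 : ContinuousAt (fun p : ℝ × PP K => scl (wt μ p.1) p.2.1) (t, A) := by
    rw [continuousAt_pi]
    intro i
    rw [continuousAt_pi]
    intro j
    unfold scl
    apply ContinuousAt.div
    · apply Continuous.continuousAt
      have a1 : Continuous fun p : ℝ × PP K => ((wt μ p.1 i : ℝ) : K) :=
        RCLike.continuous_ofReal.comp ((wt_cont μ i).comp continuous_fst)
      have a2 : Continuous fun p : ℝ × PP K => ((wt μ p.1 j : ℝ) : K) :=
        RCLike.continuous_ofReal.comp ((wt_cont μ j).comp continuous_fst)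
      have a3 : Continuous fun p : ℝ × PP K => p.2.1 i j := by
        have b1 : Continuous fun A : Fin 3 → Fin 3 → K => A i j := by fun_prop
        exact b1.comp (continuous_subtype_val.comp continuous_snd)
      exact (a1.mul a2).mul a3
    · exact (RCLike.continuous_ofReal.comp (sum_cont μ)).continuousAt
    · change ((∑ k, wt μ t k ^ 2 * dg A.1 k : ℝ) : K) ≠ 0
      rw [RCLike.ofReal_ne_zero]
      exact (wt_pos hA t).ne'
  exact h3

theorem wt_zero (μ : Fin 3 → ℝ) (i : Fin 3) : wt μ 0 i = 1 := by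
  unfold wt; split_ifs <;> simp

theorem rg_compact (μ : Fin 3 → ℝ) : IsCompact (Rg K μ) := by
  apply IsClosed.isCompact
  apply isClosed_le continuous_const
  apply continuous_finsetSum
  intro i _
  exact continuous_const.mul (dg_cont i)

theorem ass_region {μ : Fin 3 → ℝ} (h : ASS (Zr K μ)) : ASS (Rg K μ) := by
  refine ASS.of_homotopy (rg_compact μ) h (Hr μ) (fun t _ x hx => hr_cont hx t) ?_ ?_ ?_
    (zr_sub μ)
  · intro t ht x hx
    rw [hr_eq hx]
    exact scl_region hx ht.1 ht.2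
  · intro x hx
    rw [hr_eq hx]
    apply Subtype.ext
    exact scl_one x.2 (wt_zero μ)
  · intro x hx
    rw [hr_eq hx]
    exact scl_core hx

theorem hi_region {μ : Fin 3 → ℝ} (h : HI (inc (Zr K μ))) : HI (inc (Rg K μ)) := by
  let i : C(Zr K μ, Rg K μ) := ⟨fun x => ⟨x, zr_sub μ x.2⟩, by fun_prop⟩
  let r : C(Rg K μ, Zr K μ) := ⟨fun x => ⟨Hr μ 1 x, by rw [hr_eq x.2]; exact scl_core x.2⟩, by
    apply Continuous.subtype_mk
    rw [continuous_iff_continuousAt]
    intro x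
    have h1 : ContinuousAt (fun x : Rg K μ => ((1 : ℝ), (x : PP K))) x := by fun_prop
    exact ContinuousAt.comp (x := x) (f := fun x : Rg K μ => ((1 : ℝ), (x : PP K)))
      (g := fun p : ℝ × PP K => Hr μ p.1 p.2) (hr_cont x.2 1) h1⟩
  let H : C(Rg K μ × unitInterval, Rg K μ) :=
    ⟨fun p => ⟨Hr μ p.2 p.1, by rw [hr_eq p.1.2]; exact scl_region p.1.2 p.2.2.1 p.2.2.2⟩, by
      apply Continuous.subtype_mk
      rw [continuous_iff_continuousAt]
      intro x
      have h1 : ContinuousAt (fun x : Rg K μ × unitInterval => ((x.2 : ℝ), (x.1 : PP K))) x := by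
        fun_prop
      exact ContinuousAt.comp (x := x)
        (f := fun x : Rg K μ × unitInterval => ((x.2 : ℝ), (x.1 : PP K)))
        (g := fun p : ℝ × PP K => Hr μ p.1 p.2) (hr_cont x.1.2 x.2) h1⟩
  refine HI.of_homotopy (inc (Rg K μ)) i r H ?_ (fun x => rfl) h
  intro x
  apply Subtype.ext
  change Hr μ ((0 : unitInterval) : ℝ) (x : PP K) = x
  rw [hr_eq x.2]
  apply Subtype.ext
  exact scl_one x.1.2 (wt_zero μ)

end region

end Pool.Agent.H71
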