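import Pool.Agent.H71.Tgt

/-!
The real and complex projective planes as tame manifolds like projective planes.
-/

set_option autoImplicit false

namespace Pool.Agent.H71

open Pool.Agent.Helper775.Tight
open Set Topology SoftCx
open scoped InnerProductSpace

/-- A closed subset `S` of a space is locally flat of dimension `d` and codimension `d` when
each of its points has an open neighbourhood with coordinates in `ℝ^d × ℝ^d` in which `S` is the
linear subspace `ℝ^d × 0`. -/
def LocallyFlat (d : ℕ) {P : Type*} [TopologicalSpace P] (S : Set P) : Prop :=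
  ∀ x ∈ S, ∃ e : OpenPartialHomeomorph P (EuclideanSpace ℝ (Fin d) × EuclideanSpace ℝ (Fin d)),
    x ∈ e.source ∧ ∀ y ∈ e.source, y ∈ S ↔ (e y).2 = 0

/-- A manifold like a projective plane, `P = P^{2d}`: a closed topological manifold of dimension
`2d` containing a tame (locally flat) sphere `S^d` whose complement is homeomorphic to
`ℝ^{2d}`. -/
structure IsTamePlane (d : ℕ) (P : Type*) [TopologicalSpace P]
    [ChartedSpace (EuclideanSpace ℝ (Fin (2 * d))) P] : Prop where
  compact : CompactSpace P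
  hausdorff : T2Space P
  sphere_and_cell : ∃ S : Set P,
    Nonempty (S ≃ₜ Metric.sphere (0 : EuclideanSpace ℝ (Fin (d + 1))) 1) ∧
    Nonempty ((Sᶜ : Set P) ≃ₜ EuclideanSpace ℝ (Fin (2 * d))) ∧ LocallyFlat d S

section generic

variable {K : Type*} [RCLike K] {d : ℕ}

theorem ln_flat (ι : EuclideanSpace ℝ (Fin d) ≃ₗᵢ[ℝ] K) : LocallyFlat d (Ln K) := by
  intro x hx
  have h0 : ∃ k : Fin 3, k ≠ 2 ∧ x.1 k k ≠ 0 := by
    obtain ⟨k, hk⟩ := exists_dg_pos x
    refine ⟨k, ?_, hk⟩
    rintro rfl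
    apply hk
    rw [entry_diag x.2, (hx : dg x.1 2 = 0)]
    simp
  obtain ⟨k, hk2, hk⟩ := h0
  have hs : k.succAbove (1 : Fin 2) = 2 := by
    fin_cases k
    · rfl
    · rfl
    · exact absurd rfl hk2
  let g : (Fin 2 → K) ≃ₜ EuclideanSpace ℝ (Fin d) × EuclideanSpace ℝ (Fin d) :=
    Homeomorph.finTwoArrow.trans
      (ι.symm.toHomeomorph.prodCongr ι.symm.toHomeomorph)
  refine ⟨(chart k).trans g.toOpenPartialHomeomorph, ?_, ?_⟩
  · rw [OpenPartialHomeomorph.trans_source]
    exact ⟨hk, mem_univ _⟩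
  · intro y hy
    rw [OpenPartialHomeomorph.trans_source] at hy
    have hy1 : y.1 k k ≠ 0 := hy.1
    have e1 : (((chart k).trans g.toOpenPartialHomeomorph) y).2 =
        ι.symm (y.1 (k.succAbove (1 : Fin 2)) k / y.1 k k) := rfl
    rw [e1, hs]
    have e2 : ι.symm (y.1 2 k / y.1 k k) = 0 ↔ y.1 2 k = 0 := by
      rw [LinearIsometryEquiv.map_eq_zero_iff, div_eq_zero_iff]
      simp [hy1]
    rw [e2]
    have h3 := entry_norm y.2 2 k
    have hk3 : dg y.1 k ≠ 0 := by
      intro h
      apply hy1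
      rw [entry_diag y.2, h]; simp
    constructor
    · intro h
      rw [(h : dg y.1 2 = 0), zero_mul] at h3
      exact norm_eq_zero.1 (pow_eq_zero_iff (two_ne_zero) |>.1 h3)
    · intro h
      rw [h, norm_zero] at h3
      have h4 : dg y.1 2 * dg y.1 k = 0 := by rw [← h3]; simp
      rcases mul_eq_zero.1 h4 with h5 | h5
      · exact h5
      · exact absurd h5 hk3

theorem plane_facts (ι : EuclideanSpace ℝ (Fin d) ≃ₗᵢ[ℝ] K)
    (κ : (Fin 2 → K) ≃ₜ EuclideanSpace ℝ (Fin (2 * d))) :
    @IsTamePlane d (PP K) _ (ppCharted κ) :=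
  letI := ppCharted κ
  { compact := inferInstance
    hausdorff := inferInstance
    sphere_and_cell := ⟨Ln K, ⟨lnHomeo ι⟩, ⟨complHomeo κ⟩, ln_flat ι⟩ }

end generic

end Pool.Agent.H71
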