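import Pool.Agent.H71.Line

/-!
The nontrivial class of degree one of the real projective plane.
-/

set_option autoImplicit false

namespace Pool.Agent.H71

open Pool.Agent.Helper775.Tight
open Set Topology SoftCx

/-- a unit vector representing a point -/
noncomputable def sv (A : PP ℝ) : Fin 3 → ℝ := A.2.choose

theorem sv_norm (A : PP ℝ) : ∑ i, sv A i * sv A i = 1 := by
  have h := A.2.choose_spec.1
  rw [← h]
  refine Finset.sum_congr rfl fun i _ => ?_
  rw [Real.norm_eq_abs, sq_abs, sq]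
  rfl

theorem sv_eq (A : PP ℝ) (i j : Fin 3) : A.1 i j = sv A i * sv A j := by
  have h := A.2.choose_spec.2 i j
  rw [h]
  rfl

/-- the inner product of the representing vectors -/
noncomputable def ip (u v : Fin 3 → ℝ) : ℝ := ∑ i, u i * v i

/-- the sign cocycle -/
noncomputable def sgc : Ch (PP ℝ) := fun l =>
  match l with
  | [A, B] => if ip (sv A) (sv B) < 0 then 1 else 0
  | _ => 0

theorem sgc_two (A B : PP ℝ) : sgc [A, B] = if ip (sv A) (sv B) < 0 then 1 else 0 := rfl

theorem ip_comm (u v : Fin 3 → ℝ) : ip u v = ip v u := by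
  unfold ip
  exact Finset.sum_congr rfl fun i _ => mul_comm _ _

theorem ip_cont (z : PP ℝ) : Continuous fun A : PP ℝ => ip (sv A) (sv z) ^ 2 := by
  have e : (fun A : PP ℝ => ip (sv A) (sv z) ^ 2) = fun A => ∑ i, ∑ j, A.1 i j * z.1 i j := by
    funext A
    rw [ip, sq, Finset.sum_mul_sum]
    refine Finset.sum_congr rfl fun i _ => Finset.sum_congr rfl fun j _ => ?_
    rw [sv_eq, sv_eq]; ring
  rw [e]
  refine continuous_finsetSum _ fun i _ => continuous_finsetSum _ fun j _ => ?_
  exact (entry_cont i j).mul continuous_const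

/-- the sign of `ip` relative to a base point -/
noncomputable def eps (z A : PP ℝ) : ZMod 2 := if ip (sv A) (sv z) < 0 then 1 else 0

theorem sgn_pos {u v z : Fin 3 → ℝ} (hu : ip u u = 1) (hv : ip v v = 1) (hz : ip z z = 1)
    (h1 : 3 / 4 < ip u z) (h2 : 3 / 4 < ip v z) : 0 < ip u v := by
  have h : 0 ≤ ∑ i, (u i + v i - 2 * z i) ^ 2 := Finset.sum_nonneg fun i _ => sq_nonneg _
  have e : ∑ i, (u i + v i - 2 * z i) ^ 2 =
      ip u u + ip v v + 4 * ip z z + 2 * ip u v - 4 * ip u z - 4 * ip v z := by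
    simp only [ip, Fin.sum_univ_three]; ring
  rw [e, hu, hv, hz] at h
  linarith

theorem ip_neg_left (u v : Fin 3 → ℝ) : ip (fun i => -u i) v = -ip u v := by
  simp only [ip, Fin.sum_univ_three]; ring

theorem ip_neg_right (u v : Fin 3 → ℝ) : ip u (fun i => -v i) = -ip u v := by
  simp only [ip, Fin.sum_univ_three]; ring

theorem sgc_near {z A B : PP ℝ} (hA : 9 / 16 < ip (sv A) (sv z) ^ 2)
    (hB : 9 / 16 < ip (sv B) (sv z) ^ 2) : sgc [A, B] = eps z A + eps z B := by
  have nA : ip (sv A) (sv A) = 1 := sv_norm A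
  have nB : ip (sv B) (sv B) = 1 := sv_norm B
  have nz : ip (sv z) (sv z) = 1 := sv_norm z
  rw [sgc_two, eps, eps]
  have cA : 3 / 4 < ip (sv A) (sv z) ∨ ip (sv A) (sv z) < -(3 / 4) := by
    by_contra hcon
    push Not at hcon
    nlinarith [hcon.1, hcon.2]
  have cB : 3 / 4 < ip (sv B) (sv z) ∨ ip (sv B) (sv z) < -(3 / 4) := by
    by_contra hcon
    push Not at hcon
    nlinarith [hcon.1, hcon.2]
  have nA' : ip (fun i => -sv A i) (fun i => -sv A i) = 1 := by
    rw [ip_neg_left, ip_neg_right, neg_neg, nA]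
  have nB' : ip (fun i => -sv B i) (fun i => -sv B i) = 1 := by
    rw [ip_neg_left, ip_neg_right, neg_neg, nB]
  rcases cA with cA | cA <;> rcases cB with cB | cB
  · have h := sgn_pos nA nB nz cA cB
    rw [if_neg (by linarith), if_neg (by linarith), if_neg (by linarith)]; rfl
  · have h := sgn_pos nA nB' nz cA (by rw [ip_neg_left]; linarith)
    rw [ip_neg_right] at h
    rw [if_pos (by linarith), if_neg (by linarith), if_pos (by linarith)]; rfl
  · have h := sgn_pos nA' nB nz (by rw [ip_neg_left]; linarith) cB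
    rw [ip_neg_left] at h
    rw [if_pos (by linarith), if_pos (by linarith), if_neg (by linarith)]; rfl
  · have h := sgn_pos nA' nB' nz (by rw [ip_neg_left]; linarith) (by rw [ip_neg_left]; linarith)
    rw [ip_neg_left, ip_neg_right, neg_neg] at h
    rw [if_neg (by linarith), if_pos (by linarith), if_pos (by linarith)]; rfl

theorem sgc_coc : (AS (PP ℝ)).Coc univ 2 sgc := by
  intro z _
  have h1 : {A : PP ℝ | 9 / 16 < ip (sv A) (sv z) ^ 2} ∈ 𝓝 z := by
    apply (isOpen_lt continuous_const (ip_cont z)).mem_nhds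
    change 9 / 16 < ip (sv z) (sv z) ^ 2
    have : ip (sv z) (sv z) = 1 := sv_norm z
    rw [this]; norm_num
  refine mem_Nz_of h1 fun l hl hx => ?_
  match l, hl with
  | [A, B, C], _ =>
    have hA := hx A (by simp)
    have hB := hx B (by simp)
    have hC := hx C (by simp)
    rw [AS_D, dd_apply (by simp)]
    simp only [d_cons, d_nil]
    rw [sgc_near hB hC, sgc_near hA hC, sgc_near hA hB]
    generalize eps z A = a
    generalize eps z B = b
    generalize eps z C = c
    revert a b c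
    decide

/-- the circle of the line -/
noncomputable def uv (θ : ℝ) : Fin 3 → ℝ := ![Real.cos θ, Real.sin θ, 0]

theorem uv_norm (θ : ℝ) : ip (uv θ) (uv θ) = 1 := by
  simp only [ip, uv, Fin.sum_univ_three]
  simp only [Matrix.cons_val_zero, Matrix.cons_val_one, Matrix.cons_val_two, Matrix.head_cons,
    Matrix.tail_cons]
  have := Real.cos_sq_add_sin_sq θ
  simp
  nlinarith

theorem uv_ip (θ η : ℝ) : ip (uv θ) (uv η) = Real.cos (θ - η) := by
  rw [Real.cos_sub]
  simp [ip, uv, Fin.sum_univ_three]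

/-- the parametrization of the line -/
noncomputable def gm (θ : ℝ) : PP ℝ := ⟨fun i j => uv θ i * uv θ j, uv θ, by
  have h := uv_norm θ
  rw [← h, ip]
  refine Finset.sum_congr rfl fun i _ => ?_
  rw [Real.norm_eq_abs, sq_abs, sq], fun i j => rfl⟩

theorem gm_mem (θ : ℝ) : gm θ ∈ Ln ℝ := by
  change dg (fun i j => uv θ i * uv θ j) 2 = 0
  simp [dg, uv]

theorem gm_cont : Continuous gm := by
  apply Continuous.subtype_mk
  apply continuous_pi
  intro i
  apply continuous_pi
  intro j
  have h : ∀ i, Continuous fun θ => uv θ i := by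
    intro i
    fin_cases i
    · exact Real.continuous_cos
    · exact Real.continuous_sin
    · exact continuous_const
  exact (h i).mul (h j)

theorem gm_pi : gm Real.pi = gm 0 := by
  apply Subtype.ext
  funext i j
  change uv Real.pi i * uv Real.pi j = uv 0 i * uv 0 j
  fin_cases i <;> fin_cases j <;> simp [uv]

theorem gm_eps (θ : ℝ) : ip (sv (gm θ)) (uv θ) ^ 2 = 1 ∧
    ∀ i, sv (gm θ) i = ip (sv (gm θ)) (uv θ) * uv θ i := by
  have h : ∀ i j, sv (gm θ) i * sv (gm θ) j = uv θ i * uv θ j := fun i j =>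
    (sv_eq (gm θ) i j).symm
  have n1 : ∑ i, sv (gm θ) i * sv (gm θ) i = 1 := sv_norm _
  have n2 : ∑ i, uv θ i * uv θ i = 1 := uv_norm θ
  constructor
  · rw [ip, sq, Finset.sum_mul_sum]
    have e : ∀ i j, sv (gm θ) i * uv θ i * (sv (gm θ) j * uv θ j) =
        (uv θ i * uv θ i) * (uv θ j * uv θ j) := by
      intro i j
      have := h i j
      linear_combination (uv θ i * uv θ j) * this
    simp only [e]
    rw [← Finset.sum_mul_sum, n2, one_mul]
  · intro i
    rw [ip, Finset.sum_mul]
    have e : ∀ j, sv (gm θ) j * uv θ j * uv θ i = sv (gm θ) i * (sv (gm θ) j * sv (gm θ) j) := by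
      intro j
      have := h j i
      linear_combination (-(sv (gm θ) j)) * this
    simp only [e]
    rw [← Finset.mul_sum, n1, mul_one]

theorem sq_eq_one_iff_of_side {x : ℝ} (h : x ^ 2 = 1) : x = 1 ∨ x = -1 := by
  have : (x - 1) * (x + 1) = 0 := by linear_combination h
  rcases mul_eq_zero.1 this with h | h
  · left; linarith
  · right; linarith

/-- sign at `θ` -/
noncomputable def es (θ : ℝ) : ZMod 2 := if ip (sv (gm θ)) (uv θ) < 0 then 1 else 0

theorem sgc_gm {θ η : ℝ} (h : 0 < Real.cos (θ - η)) : sgc [gm θ, gm η] = es θ + es η := by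
  obtain ⟨a1, a2⟩ := gm_eps θ
  obtain ⟨b1, b2⟩ := gm_eps η
  rw [sgc_two, es, es]
  have e : ip (sv (gm θ)) (sv (gm η)) =
      ip (sv (gm θ)) (uv θ) * ip (sv (gm η)) (uv η) * Real.cos (θ - η) := by
    have e1 : ∀ i, sv (gm θ) i * sv (gm η) i =
        ip (sv (gm θ)) (uv θ) * ip (sv (gm η)) (uv η) * (uv θ i * uv η i) := by
      intro i
      calc _ = (ip (sv (gm θ)) (uv θ) * uv θ i) * (ip (sv (gm η)) (uv η) * uv η i) := by
            rw [← a2 i, ← b2 i]
        _ = _ := by ring
    have e2 : ip (sv (gm θ)) (sv (gm η)) = ∑ i, sv (gm θ) i * sv (gm η) i := rfl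
    rw [e2, ← uv_ip]
    simp only [e1]
    rw [← Finset.mul_sum]
    rfl
  rw [e]
  have cA : ip (sv (gm θ)) (uv θ) = 1 ∨ ip (sv (gm θ)) (uv θ) = -1 := sq_eq_one_iff_of_side a1
  have cB : ip (sv (gm η)) (uv η) = 1 ∨ ip (sv (gm η)) (uv η) = -1 := sq_eq_one_iff_of_side b1
  rcases cA with cA | cA <;> rcases cB with cB | cB <;> rw [cA, cB]
  · rw [if_neg (by linarith), if_neg (by norm_num)]; rfl
  · rw [if_pos (by linarith), if_neg (by norm_num), if_pos (by norm_num)]; rfl
  · rw [if_pos (by linarith), if_pos (by norm_num), if_neg (by norm_num)]; rfl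
  · rw [if_neg (by linarith), if_pos (by norm_num)]; rfl

theorem sgc_not_cob : ¬ (AS (PP ℝ)).Cob (Ln ℝ) 2 sgc := by
  rintro ⟨b, hb⟩
  have hloc : IsLocallyConstant fun θ : ℝ => b [gm θ] + es θ := by
    rw [IsLocallyConstant.iff_eventually_eq]
    intro θ
    obtain ⟨W, hW, hzW, h⟩ := exists_of_mem_Nz (by omega) (hb (gm θ) (gm_mem θ))
    have h1 : ∀ᶠ η in 𝓝 θ, gm η ∈ W := gm_cont.continuousAt.eventually (hW.mem_nhds hzW)
    have h2 : ∀ᶠ η in 𝓝 θ, 0 < Real.cos (η - θ) := by
      have hc : ContinuousAt (fun η => Real.cos (η - θ)) θ := by fun_prop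
      apply hc.eventually (lt_mem_nhds _)
      simp
    filter_upwards [h1, h2] with η hη1 hη2
    have h3 := h [gm η, gm θ] rfl (by
      intro y hy
      simp only [List.mem_cons, List.not_mem_nil, or_false] at hy
      rcases hy with rfl | rfl
      · exact hη1
      · exact hzW)
    rw [Pi.sub_apply, AS_D, dd_apply (by simp), sgc_gm hη2] at h3
    simp only [d_cons, d_nil] at h3
    have key : ∀ x y z w : ZMod 2, x + y - (w + (z + 0)) = 0 → z + x = w + y := by decide
    exact key _ _ _ _ h3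
  have h1 : b [gm Real.pi] + es Real.pi = b [gm 0] + es 0 :=
    hloc.apply_eq_of_isPreconnected isPreconnected_univ (mem_univ _) (mem_univ _)
  rw [gm_pi] at h1
  have h2 : es Real.pi = es 0 := add_left_cancel h1
  obtain ⟨a1, -⟩ := gm_eps 0
  have h3 : ip (sv (gm Real.pi)) (uv Real.pi) = -ip (sv (gm 0)) (uv 0) := by
    rw [gm_pi, ← ip_neg_right]
    congr 1
    funext i
    fin_cases i <;> simp [uv]
  have cA : ip (sv (gm 0)) (uv 0) = 1 ∨ ip (sv (gm 0)) (uv 0) = -1 := sq_eq_one_iff_of_side a1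
  rw [es, es, h3] at h2
  rcases cA with cA | cA <;> rw [cA] at h2 <;> norm_num at h2


end Pool.Agent.H71
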