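import Pool.Graph.R_seed8.Helper775.Tight.Final
import Pool.Graph.R_seed8.Helper922.HB.Sc.Prism

/-!
Singular chains mod 2: push forward, homotopy invariance, small representatives, and a criterion
for injectivity of a map in singular homology mod 2 in terms of Alexander-Spanier cocycles.
-/

set_option autoImplicit false

namespace Pool.Agent.H71

open Pool.Agent.Helper775.Tight
open Set Topology SoftCx

namespace A922
export Pool.Agent.Helper922.HB.Sc (PD sbd_PD sbd_PD_zero cpush slice sbd bd_single cpush_single)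
end A922

section chains

variable {X Y Z : Type*} [TopologicalSpace X] [TopologicalSpace Y] [TopologicalSpace Z]

/-- push forward of chains mod 2 -/
noncomputable def cp (f : C(X, Y)) (n : ℕ) :
    (Sing X n →₀ ZMod 2) →ₗ[ZMod 2] (Sing Y n →₀ ZMod 2) :=
  Finsupp.lmapDomain (ZMod 2) (ZMod 2) (fun σ => f.comp σ)

theorem cp_single (f : C(X, Y)) (n : ℕ) (σ : Sing X n) (a : ZMod 2) :
    cp f n (Finsupp.single σ a) = Finsupp.single (f.comp σ) a := by
  simp [cp]

theorem cp_id (n : ℕ) (c : Sing X n →₀ ZMod 2) : cp (ContinuousMap.id X) n c = c := by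
  change Finsupp.mapDomain (fun σ => (ContinuousMap.id X).comp σ) c = c
  have : (fun σ : Sing X n => (ContinuousMap.id X).comp σ) = id := by
    funext σ; rfl
  rw [this, Finsupp.mapDomain_id]

theorem cp_cp (f : C(X, Y)) (g : C(Y, Z)) (n : ℕ) (c : Sing X n →₀ ZMod 2) :
    cp g n (cp f n c) = cp (g.comp f) n c := by
  have : (cp g n).comp (cp f n) = cp (g.comp f) n := by
    apply Finsupp.lhom_ext'
    intro σ
    apply LinearMap.ext_ring
    simp only [LinearMap.comp_apply, Finsupp.lsingle_apply, cp_single]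
    rfl
  exact LinearMap.congr_fun this c

theorem bdry_cp (f : C(X, Y)) (n : ℕ) (c : Sing X (n + 1) →₀ ZMod 2) :
    bdry Y n (cp f (n + 1) c) = cp f n (bdry X n c) := by
  have : (bdry Y n).comp (cp f (n + 1)) = (cp f n).comp (bdry X n) := by
    apply Finsupp.lhom_ext'
    intro σ
    apply LinearMap.ext_ring
    simp only [LinearMap.comp_apply, Finsupp.lsingle_apply, cp_single, sx_bdry_single, map_sum]
    rfl
  exact LinearMap.congr_fun this c

theorem isCycle_cp (f : C(X, Y)) (n : ℕ) (c : Sing X n →₀ ZMod 2) (h : IsCycle n c) :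
    IsCycle n (cp f n c) := by
  cases n with
  | zero => trivial
  | succ n =>
    change bdry Y n (cp f (n + 1) c) = 0
    have h' : bdry X n c = 0 := h
    rw [bdry_cp, h', map_zero]

theorem add_self_chain {n : ℕ} (c : Sing X n →₀ ZMod 2) : c + c = 0 := by
  ext σ
  simp only [Finsupp.add_apply, Finsupp.zero_apply]
  exact add_self2 _

theorem bdry_bdry' (n : ℕ) (c : Sing X (n + 2) →₀ ZMod 2) : bdry X n (bdry X (n + 1) c) = 0 := by
  have : (bdry X n).comp (bdry X (n + 1)) = 0 := by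
    apply Finsupp.lhom_ext'
    intro σ
    apply LinearMap.ext_ring
    ext τ
    simp only [LinearMap.comp_apply, Finsupp.lsingle_apply, sx_bdry_single, map_sum,
      LinearMap.zero_apply, Finsupp.zero_apply]
    have h := congrFun (congrFun (sdf_sdf (fun k (ρ : Sing X k) =>
      if h : k = n then (Finsupp.single (h ▸ ρ) (1 : ZMod 2) : Sing X n →₀ ZMod 2) τ else 0)) (n + 2)) σ
    simpa [sdf] using h
  exact LinearMap.congr_fun this c

/-- reduction mod 2 -/
noncomputable def red (n : ℕ) : (Sing X n →₀ ℤ) →+ (Sing X n →₀ ZMod 2) :=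
  Finsupp.mapRange.addMonoidHom (Int.castAddHom (ZMod 2))

theorem red_single (n : ℕ) (σ : Sing X n) (m : ℤ) :
    red n (Finsupp.single σ m) = Finsupp.single σ (m : ZMod 2) := by
  simp [red]

theorem red_apply (n : ℕ) (z : Sing X n →₀ ℤ) (σ : Sing X n) : red n z σ = ((z σ : ℤ) : ZMod 2) := by
  simp [red]

theorem red_surj (n : ℕ) (c : Sing X n →₀ ZMod 2) : ∃ z, red n z = c := by
  refine ⟨c.mapRange (fun a => (a.val : ℤ)) (by simp), ?_⟩
  ext σ
  rw [red_apply, Finsupp.mapRange_apply]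
  push_cast
  rw [ZMod.natCast_zmod_val]

theorem red_ext {n m : ℕ} {A : (Sing X n →₀ ℤ) →ₗ[ℤ] (Sing Y m →₀ ℤ)}
    {B : (Sing X n →₀ ZMod 2) →ₗ[ZMod 2] (Sing Y m →₀ ZMod 2)}
    (h : ∀ σ, red m (A (Finsupp.single σ 1)) = B (Finsupp.single σ 1)) (z : Sing X n →₀ ℤ) :
    red m (A z) = B (red n z) := by
  induction z using Finsupp.induction_linear with
  | zero => simp
  | add f g hf hg => rw [map_add, map_add, map_add, map_add, hf, hg]
  | single σ k =>
    have h1 : (Finsupp.single σ k : Sing X n →₀ ℤ) = k • Finsupp.single σ 1 := by simp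
    rw [h1, map_zsmul, map_zsmul, map_zsmul, map_zsmul, h, red_single, Int.cast_one]

/-- an integral chain which reduces to zero is even -/
theorem even_of_red {n : ℕ} {z : Sing X n →₀ ℤ} (h : red n z = 0) : ∃ y, z = (2 : ℤ) • y := by
  refine ⟨z.mapRange (fun m => m / 2) (by simp), ?_⟩
  ext σ
  have h1 : ((z σ : ℤ) : ZMod 2) = 0 := by rw [← red_apply, h]; rfl
  have h2 : (2 : ℤ) ∣ z σ := by
    have := (ZMod.intCast_zmod_eq_zero_iff_dvd (z σ) 2).1 h1
    exact_mod_cast this
  rw [Finsupp.smul_apply, Finsupp.mapRange_apply, smul_eq_mul]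
  omega

theorem red_even {n m : ℕ} (A : (Sing X n →₀ ℤ) →ₗ[ℤ] (Sing Y m →₀ ℤ)) {z : Sing X n →₀ ℤ}
    (h : red n z = 0) : red m (A z) = 0 := by
  obtain ⟨y, rfl⟩ := even_of_red h
  rw [map_zsmul, map_zsmul]
  ext σ
  rw [Finsupp.smul_apply, zsmul_eq_mul]
  have : ((2 : ℤ) : ZMod 2) = 0 := by decide
  rw [this, zero_mul]
  rfl

theorem neg_one_smul_zmod {n : ℕ} (k : ℕ) (τ : Sing X n) :
    red n ((((-1 : ℤ) ^ k)) • Finsupp.single τ (1 : ℤ)) = Finsupp.single τ (1 : ZMod 2) := by
  rw [map_zsmul, red_single, Int.cast_one]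
  rcases neg_one_pow_eq_or ℤ k with h | h
  · rw [h, one_smul]
  · rw [h, neg_one_smul, ← Finsupp.single_neg]
    congr 1

theorem red_sbd (n : ℕ) (z : Sing X (n + 1) →₀ ℤ) :
    red n (A922.sbd X n z) = bdry X n (red (n + 1) z) := by
  refine red_ext (A := A922.sbd X n) (B := bdry X n) (fun σ => ?_) z
  rw [sx_bdry_single, A922.sbd, A922.bd_single, map_sum]
  exact Finset.sum_congr rfl fun i _ => neg_one_smul_zmod _ _

theorem red_sbd' (n : ℕ) (z : Sing X (n + 1) →₀ ℤ) :
    red n (Sc.sbd X n z) = bdry X n (red (n + 1) z) := by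
  refine red_ext (A := Sc.sbd X n) (B := bdry X n) (fun σ => ?_) z
  rw [sx_bdry_single, Sc.sbd, Sc.bd_single, map_sum]
  exact Finset.sum_congr rfl fun i _ => neg_one_smul_zmod _ _

theorem red_cpush (f : C(X, Y)) (n : ℕ) (z : Sing X n →₀ ℤ) :
    red n (A922.cpush f n z) = cp f n (red n z) := by
  refine red_ext (A := A922.cpush f n) (B := cp f n) (fun σ => ?_) z
  rw [A922.cpush_single, cp_single, red_single, Int.cast_one]

/-- homotopy invariance mod 2 -/
theorem homotopy_bdry (H : C(X × unitInterval, Y)) (n : ℕ) (c : Sing X n →₀ ZMod 2)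
    (hc : IsCycle n c) :
    ∃ w : Sing Y (n + 1) →₀ ZMod 2,
      bdry Y n w = cp (A922.slice H 1) n c + cp (A922.slice H 0) n c := by
  obtain ⟨z, rfl⟩ := red_surj n c
  refine ⟨red (n + 1) (A922.PD H n z), ?_⟩
  have hneg : ∀ d : Sing Y n →₀ ZMod 2, -d = d := fun d =>
    neg_eq_of_add_eq_zero_left (add_self_chain d)
  rw [← red_sbd]
  cases n with
  | zero => rw [A922.sbd_PD_zero, map_sub, red_cpush, red_cpush, sub_eq_add_neg, hneg]
  | succ n =>
    have h1 := A922.sbd_PD H n z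
    have h2 : red n (A922.sbd X n z) = 0 := by rw [red_sbd]; exact hc
    have h3 := congrArg (red (n + 1)) h1
    rw [map_add, map_sub, red_even (A922.PD H n) h2, add_zero, red_cpush, red_cpush] at h3
    rw [h3, sub_eq_add_neg, hneg]

/-- small representatives mod 2 -/
theorem small_rep (𝒞 : Set (Set X)) (hopen : ∀ C ∈ 𝒞, IsOpen C) (hcov : ∀ x : X, ∃ C ∈ 𝒞, x ∈ C)
    (n : ℕ) (c : Sing X n →₀ ZMod 2) (hc : IsCycle n c) :
    ∃ (c' : Sing X n →₀ ZMod 2) (w : Sing X (n + 1) →₀ ZMod 2),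
      (∀ σ ∈ c'.support, ∃ C ∈ 𝒞, range σ ⊆ C) ∧ c' = c + bdry X n w := by
  obtain ⟨z, rfl⟩ := red_surj n c
  refine ⟨red n (Sc.rho 𝒞 n z), red (n + 1) (Sc.DD 𝒞 n z), ?_, ?_⟩
  · intro σ hσ
    have h1 := Sc.rho_small 𝒞 hopen hcov n z
    rw [Finsupp.mem_supported] at h1
    have h2 : σ ∈ (Sc.rho 𝒞 n z).support := by
      rw [Finsupp.mem_support_iff] at hσ ⊢
      intro h0
      apply hσ
      rw [red_apply, h0, Int.cast_zero]
    exact h1 h2
  · have hneg : ∀ d : Sing X n →₀ ZMod 2, -d = d := fun d =>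
      neg_eq_of_add_eq_zero_left (add_self_chain d)
    cases n with
    | zero =>
      rw [Sc.DD_zero, map_zero, map_zero, add_zero]
      rfl
    | succ n =>
      rw [Sc.rho_succ, map_sub, map_sub]
      have h2 : red n (Sc.sbd X n z) = 0 := by rw [red_sbd']; exact hc
      rw [red_even (Sc.DD 𝒞 n) h2, sub_zero, red_sbd', sub_eq_add_neg, hneg]

end chains

/-- `j` induces injections in singular homology mod 2. -/
def HI {X Y : Type*} [TopologicalSpace X] [TopologicalSpace Y] (j : C(X, Y)) : Prop :=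
  ∀ (n : ℕ) (c : Sing X n →₀ ZMod 2), IsCycle n c → (∃ b, bdry Y n b = cp j n c) →
    ∃ b', bdry X n b' = c

section HI

variable {X Y Z : Type*} [TopologicalSpace X] [TopologicalSpace Y] [TopologicalSpace Z]

/-- the inclusion of a subspace -/
def inc (A : Set X) : C(A, X) := ⟨Subtype.val, continuous_subtype_val⟩

theorem inc_inj (A : Set X) (n : ℕ) : Function.Injective (cp (inc A) n) := by
  apply Finsupp.mapDomain_injective
  intro σ τ h
  apply ContinuousMap.ext
  intro t
  apply Subtype.ext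
  exact congrArg (fun f : Sing X n => f t) h

theorem chainIn_cp_inc (A : Set X) {n : ℕ} (c : Sing A n →₀ ZMod 2) :
    ChainIn A (cp (inc A) n c) := by
  classical
  intro σ hσ
  have h1 := Finsupp.mapDomain_support hσ
  obtain ⟨τ, -, rfl⟩ := Finset.mem_image.1 h1
  rintro _ ⟨t, rfl⟩
  exact (τ t).2

theorem lift_chainIn (A : Set X) {n : ℕ} (c : Sing X n →₀ ZMod 2) (h : ChainIn A c) :
    ∃ c' : Sing A n →₀ ZMod 2, cp (inc A) n c' = c := by
  have h' : c ∈ LinearMap.range (cp (inc A) n) := by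
    rw [← Finsupp.sum_single c, Finsupp.sum]
    refine Submodule.sum_mem _ fun σ hσ => ?_
    refine ⟨Finsupp.single (⟨fun t => ⟨σ t, h σ hσ ⟨t, rfl⟩⟩,
      Continuous.subtype_mk σ.continuous _⟩ : Sing A n) (c σ), ?_⟩
    rw [cp_single]
    congr 1
  exact h'

theorem homologyInjective_of_HI {A : Set X} (h : HI (inc A)) : HomologyInjective A := by
  intro n c hcA hc hb
  obtain ⟨c', rfl⟩ := lift_chainIn A c hcA
  have hc' : IsCycle n c' := by
    cases n with
    | zero => trivial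
    | succ n =>
      change bdry A n c' = 0
      apply inc_inj A n
      have h1 : bdry X n (cp (inc A) (n + 1) c') = 0 := hc
      rw [← bdry_cp, h1, map_zero]
  obtain ⟨b', hb'⟩ := h n c' hc' hb
  exact ⟨cp (inc A) (n + 1) b', chainIn_cp_inc A b', by rw [bdry_cp, hb']⟩

/-- a map with a left inverse -/
theorem HI.of_leftInverse (j : C(X, Y)) (r : C(Y, X)) (h : ∀ x, r (j x) = x) : HI j := by
  intro n c hc ⟨b, hb⟩
  refine ⟨cp r (n + 1) b, ?_⟩
  rw [bdry_cp, hb, cp_cp]
  have : r.comp j = ContinuousMap.id X := ContinuousMap.ext h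
  rw [this, cp_id]

theorem HI.comp {i : C(X, Y)} {j : C(Y, Z)} (hj : HI j) (hi : HI i) : HI (j.comp i) := by
  intro n c hc ⟨b, hb⟩
  rw [← cp_cp] at hb
  obtain ⟨b', hb'⟩ := hj n _ (isCycle_cp i n c hc) ⟨b, hb⟩
  exact hi n c hc ⟨b', hb'⟩

/-- homotopy invariance of injectivity: `j : A → Y`, `i : L → A`, `r : A → L` with `i ∘ r`
homotopic to the identity of `A`. -/
theorem HI.of_homotopy (j : C(X, Y)) (i : C(Z, X)) (r : C(X, Z)) (H : C(X × unitInterval, X))
    (h0 : ∀ x, H (x, 0) = x) (h1 : ∀ x, H (x, 1) = i (r x)) (h : HI (j.comp i)) : HI j := by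
  intro n c hc ⟨b, hb⟩
  obtain ⟨w, hw⟩ := homotopy_bdry H n c hc
  have e0 : A922.slice H 0 = ContinuousMap.id X := ContinuousMap.ext h0
  have e1 : A922.slice H 1 = i.comp r := ContinuousMap.ext h1
  rw [e0, e1, cp_id, ← cp_cp] at hw
  -- `hw : ∂ w = i (r c) + c`
  have h2 : cp (j.comp i) n (cp r n c) = bdry Y n (b + cp j (n + 1) w) := by
    rw [map_add, hb, bdry_cp, hw, map_add, add_comm (cp j n c), add_assoc,
      add_self_chain, add_zero, cp_cp, cp_cp, cp_cp]
  obtain ⟨b', hb'⟩ := h n (cp r n c) (isCycle_cp r n c hc) ⟨_, h2.symm⟩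
  refine ⟨cp i (n + 1) b' + w, ?_⟩
  rw [map_add, bdry_cp, hb', hw, ← add_assoc, add_self_chain, zero_add]

theorem HI.of_isEmpty [IsEmpty X] (j : C(X, Y)) : HI j := by
  intro n c hc _
  refine ⟨0, ?_⟩
  have : IsEmpty (Sing X n) := ⟨fun σ => isEmptyElim (σ (stdSimplex.vertex 0))⟩
  rw [map_zero]
  exact Subsingleton.elim _ _

end HI

section criterion

variable {S P : Type*} [MetricSpace S] [CompactSpace S] [MetricSpace P] {m : ℕ}
  [ChartedSpace (EuclideanSpace ℝ (Fin m)) S]

include m in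
/-- If every Alexander-Spanier class of the compact manifold `S` is a pull back under `j`, then
`j` induces injections in singular homology mod 2. -/
theorem HI.of_AS (j : C(S, P))
    (hj : ∀ n c, (AS S).Coc univ n c → ∃ c', (AS P).Coc univ n c' ∧
      (AS S).Cob univ n (c - pb j c')) : HI j := by
  classical
  intro n z hz ⟨b, hb⟩
  by_contra hno
  push Not at hno
  have hnr : z ∉ LinearMap.range (bdry S n) := by
    rintro ⟨b', hb'⟩
    exact hno b' hb'
  obtain ⟨φ, hφz, hφ⟩ := Submodule.exists_le_ker_of_notMem hnr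
  have hφ0 : ∀ w, φ (bdry S n w) = 0 := fun w => hφ ⟨w, rfl⟩
  -- the singular cochain
  set s : SCh S := Function.update 0 n (fun σ => φ (Finsupp.single σ 1)) with hs
  have hsn : ∀ σ, s n σ = φ (Finsupp.single σ 1) := by
    intro σ; rw [hs, Function.update_self]
  have hsc : (Sg S).Coc univ (n + 1) s := by
    intro x _
    refine ⟨univ, Filter.univ_mem, fun σ _ => ?_⟩
    change ∑ i : Fin (n + 2), s n (sface n i σ) = 0
    simp only [hsn]
    rw [← map_sum, ← sx_bdry_single]
    exact hφ0 _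
  obtain ⟨c, hc, hc2⟩ := theta_surj (m := m) isCompact_univ hsc
  obtain ⟨c', hc', e, he⟩ := hj (n + 1) c hc
  -- germs of singular cochains
  have h1 : (Sg S).Cob univ (n + 1) (s - theta (pb j c')) := by
    have h2 : (Sg S).Cob univ (n + 1) (theta (c - pb j c')) := by
      refine ⟨theta e, fun x hx => ?_⟩
      have h3 := Theta.mem x (n + 1) _ (he x hx)
      change theta (c - pb j c' - (AS S).D e) ∈ (Sg S).N x (n + 1) at h3
      rw [theta_sub] at h3
      have h4 : theta ((AS S).D e) = (Sg S).D (theta e) := by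
        rw [AS_D]; exact (sdf_theta e).symm
      rwa [h4] at h3
    have := hc2.add h2
    rw [theta_sub] at this
    simpa using this
  obtain ⟨t, ht⟩ := h1
  -- covers
  set 𝒟 : Set (Set P) := {W | IsOpen W ∧ ∀ σ : Sing P (n + 1), range σ ⊆ W →
    ∑ i : Fin (n + 2), theta c' n (sface n i σ) = 0} with h𝒟
  have hDcov : ∀ x : P, ∃ D ∈ 𝒟, x ∈ D := by
    intro x
    have h2 := Theta.comm x (n + 2) c'
    have h3 := Theta.mem x (n + 2) _ (hc' x (mem_univ x))
    have h4 : (Sg P).D (theta c') ∈ (Sg P).N x (n + 2) := by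
      simpa using add_mem h2 h3
    obtain ⟨W, hW, h5⟩ := h4
    obtain ⟨U, hUW, hU, hxU⟩ := mem_nhds_iff.1 hW
    exact ⟨U, ⟨hU, fun σ hσ => h5 σ (hσ.trans hUW)⟩, hxU⟩
  set 𝒞 : Set (Set S) := {W | IsOpen W ∧ (∀ σ : Sing S n, range σ ⊆ W →
    s n σ - theta (pb j c') n σ - sdf t n σ = 0) ∧ ∃ D ∈ 𝒟, j '' W ⊆ D} with h𝒞
  have hCo : ∀ C ∈ 𝒞, IsOpen C := fun C hC => hC.1
  have hCcov : ∀ x : S, ∃ C ∈ 𝒞, x ∈ C := by
    intro x
    obtain ⟨W, hW, h5⟩ := ht x (mem_univ x)
    obtain ⟨U, hUW, hU, hxU⟩ := mem_nhds_iff.1 hW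
    obtain ⟨D, hD, hxD⟩ := hDcov (j x)
    refine ⟨U ∩ j ⁻¹' D, ⟨hU.inter (hD.1.preimage j.continuous), ?_, D, hD, ?_⟩, hxU, hxD⟩
    · intro σ hσ
      exact h5 σ ((hσ.trans inter_subset_left).trans hUW)
    · rintro _ ⟨y, hy, rfl⟩
      exact hy.2
  obtain ⟨z', w, hz's, hz'w⟩ := small_rep 𝒞 hCo hCcov n z hz
  have hz'c : IsCycle n z' := by
    cases n with
    | zero => trivial
    | succ n =>
      change bdry S n z' = 0
      rw [hz'w, map_add]
      have h2 : bdry S n z = 0 := hz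
      rw [h2, zero_add]
      have := sx_mem_cyc.2 (by exact hz : IsCycle (n + 1) z)
      exact bdry_bdry' n w
  have hφz' : φ z' = φ z := by rw [hz'w, map_add, hφ0, add_zero]
  -- evaluation
  set Θ : (Sing P n →₀ ZMod 2) →ₗ[ZMod 2] ZMod 2 :=
    Finsupp.linearCombination (ZMod 2) (theta c' n) with hΘ
  have hΘ1 : ∀ τ, Θ (Finsupp.single τ 1) = theta c' n τ := by
    intro τ; simp [hΘ, Finsupp.linearCombination_single]
  set Tn : (Sing S n →₀ ZMod 2) →ₗ[ZMod 2] ZMod 2 :=
    Finsupp.linearCombination (ZMod 2) (sdf t n) with hTn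
  have hTz : Tn z' = 0 := by
    cases n with
    | zero =>
      have : sdf t 0 = 0 := rfl
      rw [hTn, this]
      simp
    | succ n =>
      have h2 : Tn = (Finsupp.linearCombination (ZMod 2) (t n)).comp (bdry S n) := by
        apply Finsupp.lhom_ext'
        intro σ
        apply LinearMap.ext_ring
        simp only [LinearMap.comp_apply, Finsupp.lsingle_apply, hTn,
          Finsupp.linearCombination_single, one_smul, sx_bdry_single, map_sum]
        rfl
      rw [h2, LinearMap.comp_apply]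
      have h3 : bdry S n z' = 0 := hz'c
      rw [h3, map_zero]
  have hval : φ z' = Θ (cp j n z') + Tn z' := by
    have h2 : ∀ σ ∈ z'.support, φ (Finsupp.single σ 1) =
        Θ (cp j n (Finsupp.single σ 1)) + Tn (Finsupp.single σ 1) := by
      intro σ hσ
      obtain ⟨C, hC, hσC⟩ := hz's σ hσ
      have h3 := hC.2.1 σ hσC
      rw [cp_single, hΘ1, ← hsn, hTn, Finsupp.linearCombination_single, one_smul]
      have h4 : theta c' n (j.comp σ) = theta (pb j c') n σ := by
        simp only [theta, pb, List.map_ofFn]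
        rfl
      rw [h4]
      linear_combination h3
    conv_lhs => rw [← Finsupp.sum_single z', Finsupp.sum]
    conv_rhs => rw [← Finsupp.sum_single z', Finsupp.sum]
    simp only [map_sum]
    rw [← Finset.sum_add_distrib]
    refine Finset.sum_congr rfl fun σ hσ => ?_
    have h3 : (Finsupp.single σ (z' σ) : Sing S n →₀ ZMod 2) = z' σ • Finsupp.single σ 1 := by
      rw [Finsupp.smul_single, smul_eq_mul, mul_one]
    rw [h3, map_smul, map_smul, map_smul, map_smul, h2 σ hσ, smul_add]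
  -- the image of `z'` bounds a small chain
  have hb' : bdry P n (b + cp j (n + 1) w) = cp j n z' := by
    rw [map_add, hb, bdry_cp, hz'w, map_add]
  obtain ⟨b'', hb''s, hb''⟩ := small_bound 𝒟 univ (fun D hD => hD.1) (fun x _ => hDcov x) n
    (cp j n z') (by
      intro σ hσ
      refine ⟨subset_univ _, ?_⟩
      have h1 := Finsupp.mapDomain_support hσ
      obtain ⟨τ, hτ, rfl⟩ := Finset.mem_image.1 h1
      obtain ⟨C, hC, hτC⟩ := hz's τ hτ
      obtain ⟨D, hD, hCD⟩ := hC.2.2
      refine ⟨D, hD, ?_⟩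
      rintro _ ⟨x, rfl⟩
      exact hCD ⟨τ x, hτC ⟨x, rfl⟩, rfl⟩) _ (fun _ _ => subset_univ _) hb'
  have hΘ0 : Θ (cp j n z') = 0 := by
    rw [← hb'']
    apply sx_bdry_zero
    intro σ hσ
    simp only [hΘ1]
    obtain ⟨-, D, hD, hσD⟩ := hb''s σ hσ
    exact hD.2 σ hσD
  rw [hΘ0, hTz, add_zero, hφz'] at hval
  exact hφz hval

end criterion

end Pool.Agent.H71
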