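import Pool.Agent.H71.Sign

/-!
Linear projections of the projective planes over `ℝ` and `ℂ` are tight.
-/

set_option autoImplicit false

namespace Pool.Agent.H71

open Pool.Agent.Helper775.Tight
open Set Topology SoftCx
open scoped InnerProductSpace

section facts

variable {K : Type*} [RCLike K]

/-- both properties -/
def Good (Z : Set (PP K)) : Prop := ASS Z ∧ HI (inc Z)

theorem good_univ : Good (univ : Set (PP K)) :=
  ⟨ASS.univ, HI.of_leftInverse _ ⟨fun x => ⟨x, mem_univ x⟩, by fun_prop⟩ fun _ => rfl⟩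

theorem good_subsingleton {Z : Set (PP K)} (h : Z.Subsingleton) : Good Z := by
  rcases Z.eq_empty_or_nonempty with rfl | ⟨p, hp⟩
  · exact ⟨ASS.empty, HI.of_isEmpty _⟩
  · have e : Z = {p} := (h.eq_singleton_of_mem hp)
    subst e
    refine ⟨ASS.singleton p, HI.of_leftInverse _ ⟨fun _ => ⟨p, rfl⟩, continuous_const⟩ ?_⟩
    rintro ⟨x, hx⟩
    apply Subtype.ext
    exact hx.symm

theorem Good.preimage {Z : Set (PP K)} (h : Good Z) (Φ : PP K ≃ₜ PP K) : Good (Φ ⁻¹' Z) :=
  ⟨h.1.preimage Φ, h.2.preimage Φ⟩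

theorem good_two {Z : Set (PP K)} {i j : Fin 3} (hij : i ≠ j)
    (h : ∀ A ∈ Z, dg A.1 i = 0 ∧ dg A.1 j = 0) : Good Z := by
  apply good_subsingleton
  have key : ∀ A ∈ Z, ∀ a, a ≠ i → a ≠ j → dg A.1 a = 1 := by
    intro A hA a h1 h2
    obtain ⟨h3, h4⟩ := h A hA
    have h5 := dg_sum A.2
    rw [Fin.sum_univ_three] at h5
    fin_cases i <;> fin_cases j <;> fin_cases a <;> simp_all
  have idx : ∀ i j : Fin 3, i ≠ j → ∀ a b : Fin 3, a ≠ b → a = i ∨ a = j ∨ b = i ∨ b = j := by
    decide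
  intro A hA B hB
  apply Subtype.ext
  funext a b
  by_cases hab : a = b
  · subst hab
    rw [entry_diag A.2, entry_diag B.2]
    congr 1
    by_cases h1 : a = i
    · rw [h1, (h A hA).1, (h B hB).1]
    · by_cases h2 : a = j
      · rw [h2, (h A hA).2, (h B hB).2]
      · rw [key A hA a h1 h2, key B hB a h1 h2]
  · have z : ∀ C ∈ Z, C.1 a b = 0 := by
      intro C hC
      have h1 := entry_norm C.2 a b
      obtain ⟨hi, hj⟩ := h C hC
      have h2 : dg C.1 a * dg C.1 b = 0 := by
        rcases idx i j hij a b hab with h | h | h | h <;> rw [h]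
        · rw [hi, zero_mul]
        · rw [hj, zero_mul]
        · rw [hi, mul_zero]
        · rw [hj, mul_zero]
      rw [h2] at h1
      exact norm_eq_zero.1 (pow_eq_zero_iff (two_ne_zero) |>.1 h1)
    rw [z A hA, z B hB]

theorem good_zr (hL : Good (Ln K)) (μ : Fin 3 → ℝ) : Good (Zr K μ) := by
  by_cases h2 : ∃ i j, i ≠ j ∧ μ i < 0 ∧ μ j < 0
  · obtain ⟨i, j, hij, hi, hj⟩ := h2
    exact good_two hij fun A hA => ⟨hA i hi, hA j hj⟩
  push Not at h2
  by_cases h1 : ∃ i, μ i < 0
  · obtain ⟨i, hi⟩ := h1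
    have e : Zr K μ = (permHomeo (Equiv.swap i 2)) ⁻¹' (Ln K) := by
      ext A
      have e1 : (A ∈ (permHomeo (Equiv.swap i 2)) ⁻¹' (Ln K)) ↔ dg A.1 i = 0 := by
        change dg (prm (Equiv.swap i 2) A.1) 2 = 0 ↔ _
        rw [dg, prm, Equiv.swap_apply_right]
        rfl
      rw [e1]
      constructor
      · intro h
        exact h i hi
      · intro h j hj
        by_cases hij : i = j
        · rw [← hij]; exact h
        · exact absurd hj (not_lt.2 (h2 i j hij hi))
    rw [e]
    exact hL.preimage _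
  · push Not at h1
    have e : Zr K μ = univ := by
      rw [eq_univ_iff_forall]
      intro A i hi
      exact absurd hi (not_lt.2 (h1 i))
    rw [e]
    exact good_univ

theorem good_hf (hL : Good (Ln K)) {B : Matrix (Fin 3) (Fin 3) K} (hB : B.IsHermitian) :
    Good (Hf B) := by
  obtain ⟨Φ, μ, h⟩ := hf_eq hB
  rw [h]
  have h1 := good_zr hL μ
  exact Good.preimage ⟨ass_region h1.1, hi_region h1.2⟩ Φ

theorem isCompact_hf (B : Matrix (Fin 3) (Fin 3) K) : IsCompact (Hf B) := by
  apply IsClosed.isCompact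
  apply isClosed_le continuous_const
  refine RCLike.continuous_re.comp ?_
  refine continuous_finsetSum _ fun i _ => continuous_finsetSum _ fun j _ => ?_
  exact continuous_const.mul (entry_cont j i)

/-- maps whose half spaces are Hermitian half spaces are tight. -/
theorem tight_of (hL : Good (Ln K)) {N : ℕ} (f : PP K → EuclideanSpace ℝ (Fin N))
    (h : ∀ z t, ∃ B : Matrix (Fin 3) (Fin 3) K, B.IsHermitian ∧ {A | t ≤ ⟪z, f A⟫_ℝ} = Hf B) :
    TightMap f ∧ CechTightMap f := by
  constructor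
  · intro z t _
    obtain ⟨B, hB, e⟩ := h z t
    rw [e]
    exact homologyInjective_of_HI (good_hf hL hB).2
  · intro z t _
    obtain ⟨B, hB, e⟩ := h z t
    rw [e]
    exact cechSurjective_of_ASS (isCompact_hf B) (good_hf hL hB).1

end facts

/-- coordinates -/
noncomputable def kap (K : Type*) [RCLike K] (d : ℕ) (h : Module.finrank ℝ K = d) :
    (Fin 2 → K) ≃ₜ EuclideanSpace ℝ (Fin (2 * d)) :=
  (ContinuousLinearEquiv.ofFinrankEq (𝕜 := ℝ) (by
    rw [Module.finrank_pi_fintype, finrank_euclideanSpace, Fintype.card_fin]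
    simp [h])).toHomeomorph

/-- real coordinates -/
noncomputable def iotaR : EuclideanSpace ℝ (Fin 1) ≃ₗᵢ[ℝ] ℝ :=
  (OrthonormalBasis.singleton (Fin 1) ℝ).repr.symm

/-- real coordinates of complex numbers -/
noncomputable def iotaC : EuclideanSpace ℝ (Fin 2) ≃ₗᵢ[ℝ] ℂ :=
  Complex.orthonormalBasisOneI.repr.symm

/-- the line of the real projective plane -/
theorem good_ln_real : Good (Ln ℝ) := by
  have h := ass_sphere_of_class (d := 1) le_rfl (Ln ℝ) ln_closed (lnHomeo iotaR) sgc sgc_coc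
    sgc_not_cob
  exact ⟨h, hi_sphere (Ln ℝ) (lnHomeo iotaR) h⟩

/-- the line of the complex projective plane -/
theorem good_ln_complex : Good (Ln ℂ) := by
  have h := ass_sphere_of_two_le (d := 2) le_rfl (Ln ℂ) ln_closed (lnHomeo iotaC)
    (complHomeo (kap ℂ 2 Complex.finrank_real_complex))
  exact ⟨h, hi_sphere (Ln ℂ) (lnHomeo iotaC) h⟩

end Pool.Agent.H71
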